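import Mathlib
import Pool.Agent.H383.SqrtIndep

open Finset

namespace Pool.Agent.H421MQ

open Pool.Agent.H383.Gauss

/-- evaluation of a coefficient family at an assignment `g` of square roots -/
noncomputable def ev {R : Type*} [Field R] (g : ℕ → R) (P : Finset ℕ) (c : Finset ℕ → ℚ) : R :=
  ∑ A ∈ P.powerset, ((c A : ℚ) : R) * ∏ p ∈ A, g p

lemma ev_empty {R : Type*} [Field R] (g : ℕ → R) (c : Finset ℕ → ℚ) : ev g ∅ c = ((c ∅ : ℚ) : R) := by
  simp [ev]

lemma ev_insert {R : Type*} [Field R] (g : ℕ → R) {p : ℕ} {P : Finset ℕ} (hp : p ∉ P)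
    (c : Finset ℕ → ℚ) :
    ev g (insert p P) c = ev g P c + g p * ev g P (fun A => c (insert p A)) := by
  unfold ev
  rw [Finset.sum_powerset_insert hp, Finset.mul_sum]
  congr 1
  apply Finset.sum_congr rfl
  intro A hA
  have : p ∉ A := fun h => hp (Finset.mem_powerset.mp hA h)
  rw [Finset.prod_insert this]; ring

lemma ev_congr_g {R : Type*} [Field R] {g g' : ℕ → R} {P : Finset ℕ}
    (c : Finset ℕ → ℚ) (h : ∀ p ∈ P, g p = g' p) : ev g P c = ev g' P c := by
  unfold ev
  apply Finset.sum_congr rfl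
  intro A hA
  rw [Finset.prod_congr rfl (fun p hp => h p (Finset.mem_powerset.mp hA hp))]

lemma ev_congr {R : Type*} [Field R] {g : ℕ → R} {P : Finset ℕ}
    {c d : Finset ℕ → ℚ} (h : ∀ A ⊆ P, c A = d A) : ev g P c = ev g P d := by
  unfold ev
  apply Finset.sum_congr rfl
  intro A hA
  rw [h A (Finset.mem_powerset.mp hA)]

lemma ev_mono {R : Type*} [Field R] [CharZero R] (g : ℕ → R) {P P' : Finset ℕ} (hP : P ⊆ P')
    {c : Finset ℕ → ℚ} (h : ∀ A, c A ≠ 0 → A ⊆ P) : ev g P' c = ev g P c := by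
  unfold ev
  symm
  apply Finset.sum_subset (Finset.powerset_mono.mpr hP)
  intro A hA hA'
  have : c A = 0 := by
    by_contra h0
    exact hA' (Finset.mem_powerset.mpr (h A h0))
  rw [this]; simp

lemma ev_add {R : Type*} [Field R] [CharZero R] (g : ℕ → R) (P : Finset ℕ) (c d : Finset ℕ → ℚ) :
    ev g P (fun A => c A + d A) = ev g P c + ev g P d := by
  unfold ev
  rw [← Finset.sum_add_distrib]
  apply Finset.sum_congr rfl
  intro A _
  push_cast; ring

lemma ev_smul {R : Type*} [Field R] [CharZero R] (g : ℕ → R) (P : Finset ℕ) (q : ℚ)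
    (c : Finset ℕ → ℚ) :
    ev g P (fun A => q * c A) = (q : R) * ev g P c := by
  unfold ev
  rw [Finset.mul_sum]
  apply Finset.sum_congr rfl
  intro A _
  push_cast; ring

lemma ev_sum {R : Type*} [Field R] [CharZero R] (g : ℕ → R) (P : Finset ℕ) {ι : Type*}
    (s : Finset ι) (c : ι → Finset ℕ → ℚ) :
    ev g P (fun A => ∑ i ∈ s, c i A) = ∑ i ∈ s, ev g P (c i) := by
  unfold ev
  rw [Finset.sum_comm]
  apply Finset.sum_congr rfl
  intro A _
  push_cast
  rw [Finset.sum_mul]

/-- sign of `p` in the pattern `S` -/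
noncomputable def sg (S : Finset ℕ) (p : ℕ) : ℝ := if p ∈ S then -1 else 1

lemma sg_sq (S : Finset ℕ) (p : ℕ) : sg S p ^ 2 = 1 := by
  unfold sg; split_ifs <;> norm_num

/-- the conjugate of `ev √ P c` with sign pattern `S` -/
noncomputable def cj (P : Finset ℕ) (c : Finset ℕ → ℚ) (S : Finset ℕ) : ℝ :=
  ev (fun p => sg S p * √(p:ℝ)) P c

lemma cj_empty (c : Finset ℕ → ℚ) (S : Finset ℕ) : cj ∅ c S = ((c ∅ : ℚ) : ℝ) := by
  unfold cj; rw [ev_empty]

lemma cj_insert {p : ℕ} {P : Finset ℕ} (hp : p ∉ P) (c : Finset ℕ → ℚ) (S : Finset ℕ) :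
    cj (insert p P) c S = cj P c S + sg S p * √(p:ℝ) * cj P (fun A => c (insert p A)) S := by
  unfold cj; rw [ev_insert _ hp]

lemma cj_add (P : Finset ℕ) (c d : Finset ℕ → ℚ) (S : Finset ℕ) :
    cj P (fun A => c A + d A) S = cj P c S + cj P d S := ev_add _ _ _ _

lemma cj_smul (P : Finset ℕ) (q : ℚ) (c : Finset ℕ → ℚ) (S : Finset ℕ) :
    cj P (fun A => q * c A) S = q * cj P c S := ev_smul _ _ _ _

lemma cj_congr {P : Finset ℕ} {c d : Finset ℕ → ℚ} (h : ∀ A ⊆ P, c A = d A) (S : Finset ℕ) :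
    cj P c S = cj P d S := ev_congr h

lemma cj_S_congr {P : Finset ℕ} (c : Finset ℕ → ℚ) {S S' : Finset ℕ}
    (h : ∀ p ∈ P, (p ∈ S ↔ p ∈ S')) : cj P c S = cj P c S' := by
  apply ev_congr_g
  intro p hp
  have := h p hp
  unfold sg
  by_cases h1 : p ∈ S
  · rw [if_pos h1, if_pos (this.mp h1)]
  · rw [if_neg h1, if_neg (fun h2 => h1 (this.mpr h2))]

/-- products of families -/
lemma cj_mul (P : Finset ℕ) : ∀ c d : Finset ℕ → ℚ, ∃ e : Finset ℕ → ℚ,
    ∀ S, cj P c S * cj P d S = cj P e S := by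
  induction P using Finset.induction_on with
  | empty =>
    intro c d
    refine ⟨fun A => c A * d A, fun S => ?_⟩
    rw [cj_empty, cj_empty, cj_empty]; push_cast; rfl
  | insert p P hp ih =>
    intro c d
    obtain ⟨e1, he1⟩ := ih c d
    obtain ⟨e2, he2⟩ := ih (fun A => c (insert p A)) (fun A => d (insert p A))
    obtain ⟨e3, he3⟩ := ih c (fun A => d (insert p A))
    obtain ⟨e4, he4⟩ := ih (fun A => c (insert p A)) d
    refine ⟨fun A => if p ∈ A then e3 (A.erase p) + e4 (A.erase p) else e1 A + p * e2 A,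
      fun S => ?_⟩
    rw [cj_insert hp, cj_insert hp, cj_insert hp]
    have h1 : cj P (fun A => if p ∈ A then e3 (A.erase p) + e4 (A.erase p) else e1 A + p * e2 A) S
        = cj P (fun A => e1 A + p * e2 A) S := by
      apply cj_congr
      intro A hA
      have : p ∉ A := fun h => hp (hA h)
      rw [if_neg this]
    have h2 : cj P (fun A => (fun A => if p ∈ A then e3 (A.erase p) + e4 (A.erase p)
        else e1 A + p * e2 A) (insert p A)) S
        = cj P (fun A => e3 A + e4 A) S := by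
      apply cj_congr
      intro A hA
      have : p ∉ A := fun h => hp (hA h)
      simp [Finset.erase_insert this]
    rw [h1, h2, cj_add, cj_add, cj_smul, ← he1 S, ← he2 S, ← he3 S, ← he4 S]
    have hs := sg_sq S p
    have hp2 : √(p:ℝ) ^ 2 = p := Real.sq_sqrt (Nat.cast_nonneg p)
    push_cast
    linear_combination (cj P (fun A => c (insert p A)) S * cj P (fun A => d (insert p A)) S) *
      (√(p:ℝ)^2 * hs + hp2)

/-- the ring of families -/
noncomputable def Fam (P : Finset ℕ) : Subring (Finset ℕ → ℝ) where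
  carrier := {f | ∃ c : Finset ℕ → ℚ, ∀ S, f S = cj P c S}
  mul_mem' := by
    rintro f g ⟨c, hc⟩ ⟨d, hd⟩
    obtain ⟨e, he⟩ := cj_mul P c d
    exact ⟨e, fun S => by rw [Pi.mul_apply, hc, hd, he]⟩
  one_mem' := by
    refine ⟨fun A => if A = ∅ then 1 else 0, fun S => ?_⟩
    unfold cj ev
    rw [Finset.sum_eq_single ∅]
    · simp
    · intro A _ hA
      simp [hA]
    · intro h; simp at h
  add_mem' := by
    rintro f g ⟨c, hc⟩ ⟨d, hd⟩
    exact ⟨fun A => c A + d A, fun S => by rw [Pi.add_apply, hc, hd, cj_add]⟩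
  zero_mem' := ⟨fun _ => 0, fun S => by unfold cj ev; simp⟩
  neg_mem' := by
    rintro f ⟨c, hc⟩
    exact ⟨fun A => (-1) * c A, fun S => by rw [Pi.neg_apply, hc, cj_smul]; push_cast; ring⟩

lemma cj_mem_Fam (P : Finset ℕ) (c : Finset ℕ → ℚ) : cj P c ∈ Fam P := ⟨c, fun _ => rfl⟩

lemma cj_mem_KS (P : Finset ℕ) (c : Finset ℕ → ℚ) : cj P c ∅ ∈ KS P := by
  unfold cj ev
  apply Subfield.sum_mem
  intro A hA
  apply Subfield.mul_mem
  · exact SubfieldClass.ratCast_mem _ _
  · apply Subfield.prod_mem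
    intro p hp
    have : sg ∅ p = 1 := by simp [sg]
    rw [this, one_mul]
    exact sqrt_mem_KS (Finset.mem_powerset.mp hA hp)

/-- linear independence of the square roots -/
lemma cj_inj (P : Finset ℕ) (hP : ∀ p ∈ P, p.Prime) : ∀ c : Finset ℕ → ℚ, cj P c ∅ = 0 →
    ∀ A ⊆ P, c A = 0 := by
  induction P using Finset.induction_on with
  | empty =>
    intro c hc A hA
    rw [cj_empty] at hc
    rw [Finset.subset_empty.mp hA]
    exact_mod_cast hc
  | insert p P hp ih =>
    intro c hc A hA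
    have ih' := ih (fun q hq => hP q (Finset.mem_insert_of_mem hq))
    have hpp : p.Prime := hP p (Finset.mem_insert_self _ _)
    rw [cj_insert hp] at hc
    have hs : sg ∅ p = 1 := by simp [sg]
    rw [hs, one_mul] at hc
    have ha := cj_mem_KS P c
    have hb := cj_mem_KS P (fun A => c (insert p A))
    have hnot : √(p:ℝ) ∉ KS P :=
      not_mem_KS (fun q hq => hP q (Finset.mem_insert_of_mem hq)) hpp.prime.squarefree
        ⟨p, hpp, dvd_rfl, hp⟩
    have hb0 : cj P (fun A => c (insert p A)) ∅ = 0 := by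
      by_contra hne
      apply hnot
      have : √(p:ℝ) = - cj P c ∅ * (cj P (fun A => c (insert p A)) ∅)⁻¹ := by
        rw [eq_mul_inv_iff_mul_eq₀ hne]; linarith
      rw [this]
      exact Subfield.mul_mem _ (Subfield.neg_mem _ ha) (Subfield.inv_mem _ hb)
    have ha0 : cj P c ∅ = 0 := by rw [hb0] at hc; simpa using hc
    by_cases hpA : p ∈ A
    · have h1 := ih' _ hb0 (A.erase p) (by
        intro x hx
        rw [Finset.mem_erase] at hx
        have := hA hx.2
        rw [Finset.mem_insert] at this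
        exact this.resolve_left hx.1)
      simpa [Finset.insert_erase hpA] using h1
    · apply ih' c ha0
      intro x hx
      have := hA hx
      rw [Finset.mem_insert] at this
      exact this.resolve_left (fun h => hpA (h ▸ hx))

/-- identities transfer to all conjugates -/
lemma Fam_inj {P : Finset ℕ} (hP : ∀ p ∈ P, p.Prime) {f : Finset ℕ → ℝ} (hf : f ∈ Fam P)
    (h0 : f ∅ = 0) (S : Finset ℕ) : f S = 0 := by
  obtain ⟨c, hc⟩ := hf
  have := cj_inj P hP c (by rw [← hc, h0])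
  rw [hc]
  unfold cj ev
  apply Finset.sum_eq_zero
  intro A hA
  rw [this A (Finset.mem_powerset.mp hA)]; simp

/-- integrality transfers to all conjugates -/
lemma Fam_integral {P : Finset ℕ} (hP : ∀ p ∈ P, p.Prime) {f : Finset ℕ → ℝ} (hf : f ∈ Fam P)
    (h0 : IsIntegral ℤ (f ∅)) (S : Finset ℕ) : IsIntegral ℤ (f S) := by
  obtain ⟨F, hF, hF0⟩ := h0
  refine ⟨F, hF, ?_⟩
  have key : ∀ T, Polynomial.eval₂ (algebraMap ℤ ℝ) (f T) F
      = (Polynomial.eval₂ (algebraMap ℤ (Finset ℕ → ℝ)) f F) T := by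
    intro T
    have := Polynomial.hom_eval₂ F (algebraMap ℤ (Finset ℕ → ℝ)) (Pi.evalRingHom (fun _ => ℝ) T) f
    rw [show (Polynomial.eval₂ (algebraMap ℤ (Finset ℕ → ℝ)) f F) T
      = (Pi.evalRingHom (fun _ => ℝ) T) (Polynomial.eval₂ (algebraMap ℤ (Finset ℕ → ℝ)) f F) from rfl,
      this]
    congr 1
  rw [key]
  apply Fam_inj hP _ (by rw [← key]; exact hF0)
  rw [Polynomial.eval₂_eq_sum_range]
  apply Subring.sum_mem
  intro i _
  apply Subring.mul_mem
  · exact (algebraMap ℤ (Fam P) (F.coeff i)).2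
  · exact Subring.pow_mem _ hf _

end Pool.Agent.H421MQ
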