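import Mathlib
import Pool.Agent.H421MQ.Basic

open Finset

namespace Pool.Agent.H421MQ

lemma sg_erase (S : Finset ℕ) (p : ℕ) : sg (S.erase p) p = 1 := by simp [sg]
lemma sg_insert (S : Finset ℕ) (p : ℕ) : sg (insert p S) p = -1 := by simp [sg]
lemma sg_of_notMem {S : Finset ℕ} {p : ℕ} (h : p ∉ S) : sg S p = 1 := by simp [sg, h]

lemma int_congr {R : Type*} [CommRing R] {x y : R} (h : IsIntegral ℤ x) (e : x = y) :
    IsIntegral ℤ y := e ▸ h

/-- Parseval identity -/
lemma parseval (g : ℕ → ℝ) (P : Finset ℕ) : ∀ c : Finset ℕ → ℚ,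
    ∑ S ∈ P.powerset, (ev (fun p => sg S p * g p) P c) ^ 2
      = 2 ^ P.card * ev (fun p => g p ^ 2) P (fun A => c A ^ 2) := by
  induction P using Finset.induction_on with
  | empty => intro c; simp [ev_empty]
  | insert p P hp ih =>
    intro c
    rw [Finset.sum_powerset_insert hp, ← Finset.sum_add_distrib, Finset.card_insert_of_notMem hp,
      ev_insert _ hp, pow_succ]
    have h1 : ∀ S ∈ P.powerset, ev (fun p => sg S p * g p) (insert p P) c ^ 2
        + ev (fun q => sg (insert p S) q * g q) (insert p P) c ^ 2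
        = 2 * (ev (fun p => sg S p * g p) P c ^ 2)
          + 2 * g p ^ 2 * (ev (fun p => sg S p * g p) P (fun A => c (insert p A)) ^ 2) := by
      intro S hS
      have hpS : p ∉ S := fun h => hp (Finset.mem_powerset.mp hS h)
      have h2 : ∀ d : Finset ℕ → ℚ, ev (fun q => sg (insert p S) q * g q) P d
          = ev (fun q => sg S q * g q) P d := by
        intro d
        apply ev_congr_g
        intro q hq
        have hqp : q ≠ p := fun h => hp (h ▸ hq)
        simp [sg, hqp]
      rw [ev_insert _ hp, ev_insert _ hp, h2, h2, sg_insert, sg_of_notMem hpS]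
      ring
    rw [Finset.sum_congr rfl h1, Finset.sum_add_distrib, ← Finset.mul_sum, ← Finset.mul_sum,
      ih c, ih (fun A => c (insert p A))]
    ring

/-- trace form -/
noncomputable def T (P : Finset ℕ) (c : Finset ℕ → ℚ) : ℝ := ev (fun p => (p:ℝ)) P (fun A => c A ^ 2)

lemma parseval_T (P : Finset ℕ) (c : Finset ℕ → ℚ) :
    ∑ S ∈ P.powerset, (cj P c S) ^ 2 = 2 ^ P.card * T P c := by
  unfold cj T
  rw [parseval]
  congr 1
  apply ev_congr_g
  intro p _
  exact Real.sq_sqrt (Nat.cast_nonneg p)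

lemma T_nonneg (P : Finset ℕ) (c : Finset ℕ → ℚ) : 0 ≤ T P c := by
  unfold T ev
  apply Finset.sum_nonneg
  intro A _
  apply mul_nonneg
  · positivity
  · apply Finset.prod_nonneg; intro p _; positivity

lemma T_insert {p : ℕ} {P : Finset ℕ} (hp : p ∉ P) (c : Finset ℕ → ℚ) :
    T (insert p P) c = T P c + p * T P (fun A => c (insert p A)) := by
  unfold T; rw [ev_insert _ hp]

lemma T_smul (P : Finset ℕ) (q : ℚ) (c : Finset ℕ → ℚ) :
    T P (fun A => q * c A) = (q:ℝ) ^ 2 * T P c := by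
  unfold T
  rw [show (q:ℝ)^2 = ((q^2 : ℚ) : ℝ) by push_cast; rfl, ← ev_smul]
  apply ev_congr
  intro A _
  ring

lemma rat_int {R : Type*} [Field R] [CharZero R] {q : ℚ} (h : IsIntegral ℤ ((q : ℚ) : R)) :
    ∃ n : ℤ, (n : ℚ) = q := by
  have h1 : IsIntegral ℤ q := by
    have : ((q : ℚ) : R) = algebraMap ℚ R q := by simp
    rw [this] at h
    exact (isIntegral_algebraMap_iff (algebraMap ℚ R).injective).mp h
  obtain ⟨n, hn⟩ := IsIntegrallyClosed.algebraMap_eq_of_integral h1
  exact ⟨n, by simpa using hn⟩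

lemma cj_sign (P : Finset ℕ) (c : Finset ℕ → ℚ) (S : Finset ℕ) :
    cj P c S = cj P (fun A => c A * ∏ p ∈ A, (if p ∈ S then (-1:ℚ) else 1)) ∅ := by
  unfold cj ev
  apply Finset.sum_congr rfl
  intro A _
  rw [Finset.prod_mul_distrib, Finset.prod_mul_distrib]
  push_cast
  have h1 : ∏ p ∈ A, sg S p = ∏ p ∈ A, (if p ∈ S then (-1:ℝ) else 1) := rfl
  have h2 : ∏ p ∈ A, sg ∅ p = 1 := by
    apply Finset.prod_eq_one; intro p _; simp [sg]
  rw [h1, h2]
  simp only [apply_ite (fun x : ℚ => (x:ℝ))]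
  push_cast
  ring

lemma cj_ne_zero {P : Finset ℕ} (hP : ∀ p ∈ P, p.Prime) {c : Finset ℕ → ℚ} {A₀ : Finset ℕ}
    (hA : A₀ ⊆ P) (hc : c A₀ ≠ 0) (S : Finset ℕ) : cj P c S ≠ 0 := by
  intro h
  rw [cj_sign] at h
  have := cj_inj P hP _ h A₀ hA
  rcases mul_eq_zero.mp this with h1 | h1
  · exact hc h1
  · rw [Finset.prod_eq_zero_iff] at h1
    obtain ⟨a, _, ha⟩ := h1
    split_ifs at ha <;> norm_num at ha

lemma norm_ge_one (P : Finset ℕ) (hP : ∀ p ∈ P, p.Prime) : ∀ f ∈ Fam P, (∀ S, IsIntegral ℤ (f S)) →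
    (∀ S, f S ≠ 0) → 1 ≤ |∏ S ∈ P.powerset, f S| := by
  induction P using Finset.induction_on with
  | empty =>
    rintro f ⟨c, hc⟩ hi h0
    simp only [Finset.powerset_empty, Finset.prod_singleton]
    have h1 := hi ∅
    have h2 := h0 ∅
    rw [hc, cj_empty] at h1 h2
    obtain ⟨n, hn⟩ := rat_int h1
    rw [hc, cj_empty, ← hn]
    have h3 : n ≠ 0 := by
      rintro rfl
      apply h2
      rw [← hn]; simp
    have : (1:ℤ) ≤ |n| := Int.one_le_abs h3
    push_cast
    exact_mod_cast this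
  | insert p P hp ih =>
    rintro f ⟨c, hc⟩ hi h0
    have ih' := ih (fun q hq => hP q (Finset.mem_insert_of_mem hq))
    set c' : Finset ℕ → ℚ := fun A => c (insert p A) with hc'
    set g : Finset ℕ → ℝ := fun S => f (S.erase p) * f (insert p S) with hg
    have hnot : ∀ (d : Finset ℕ → ℚ) (S : Finset ℕ), cj P d (S.erase p) = cj P d S := by
      intro d S
      apply cj_S_congr
      intro q hq
      have hqp : q ≠ p := fun h => hp (h ▸ hq)
      simp [hqp]
    have hnot' : ∀ (d : Finset ℕ → ℚ) (S : Finset ℕ), cj P d (insert p S) = cj P d S := by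
      intro d S
      apply cj_S_congr
      intro q hq
      have hqp : q ≠ p := fun h => hp (h ▸ hq)
      simp [hqp]
    have hgF : g ∈ Fam P := by
      have e : g = cj P c * cj P c - (fun _ => (p:ℝ)) * (cj P c' * cj P c') := by
        funext S
        simp only [hg, hc, cj_insert hp, hnot, hnot', sg_erase, sg_insert, Pi.sub_apply,
          Pi.mul_apply]
        have hp2 : √(p:ℝ) ^ 2 = p := Real.sq_sqrt (Nat.cast_nonneg p)
        linear_combination (- (cj P c' S) ^ 2) * hp2
      rw [e]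
      apply Subring.sub_mem
      · exact Subring.mul_mem _ (cj_mem_Fam P c) (cj_mem_Fam P c)
      · apply Subring.mul_mem
        · exact (natCast_mem (Fam P) p)
        · exact Subring.mul_mem _ (cj_mem_Fam P c') (cj_mem_Fam P c')
    have := ih' g hgF (fun S => IsIntegral.mul (hi _) (hi _)) (fun S => mul_ne_zero (h0 _) (h0 _))
    rw [Finset.prod_powerset_insert hp, ← Finset.prod_mul_distrib]
    have e : ∏ S ∈ P.powerset, f S * f (insert p S) = ∏ S ∈ P.powerset, g S := by
      apply Finset.prod_congr rfl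
      intro S hS
      have hpS : p ∉ S := fun h => hp (Finset.mem_powerset.mp hS h)
      simp only [hg, Finset.erase_eq_of_notMem hpS]
    rw [e]; exact this

/-- the trace form of a nonzero algebraic integer is at least one -/
lemma one_le_T {P : Finset ℕ} (hP : ∀ p ∈ P, p.Prime) {c : Finset ℕ → ℚ}
    (hi : ∀ S, IsIntegral ℤ (cj P c S)) {A₀ : Finset ℕ} (hA : A₀ ⊆ P) (hc : c A₀ ≠ 0) :
    1 ≤ T P c := by
  have h0 := cj_ne_zero hP hA hc
  have h1 := norm_ge_one P hP (cj P c) (cj_mem_Fam P c) hi h0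
  have h2 : 0 ≤ ∑ S ∈ P.powerset, ((cj P c S) ^ 2 - 1) := by
    have h3 : ∑ S ∈ P.powerset, Real.log ((cj P c S)^2) ≤ ∑ S ∈ P.powerset, ((cj P c S) ^ 2 - 1) := by
      apply Finset.sum_le_sum
      intro S _
      apply Real.log_le_sub_one_of_pos
      have := h0 S
      positivity
    refine le_trans ?_ h3
    rw [← Real.log_prod (fun S _ => pow_ne_zero 2 (h0 S))]
    apply Real.log_nonneg
    rw [Finset.prod_pow, ← sq_abs]
    exact one_le_pow₀ h1
  rw [Finset.sum_sub_distrib, parseval_T, Finset.sum_const, Finset.card_powerset] at h2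
  simp only [nsmul_eq_mul, mul_one] at h2
  push_cast at h2
  have h4 : (0:ℝ) < 2 ^ P.card := by positivity
  nlinarith

lemma sf_rat {N : ℕ} (hN : Squarefree N) {q : ℚ} {k : ℤ} (h : (N:ℚ) * q ^ 2 = k) :
    ∃ n : ℤ, (n : ℚ) = q := by
  have hd : (q.den : ℚ) ≠ 0 := by exact_mod_cast q.den_ne_zero
  have h1 : (N:ℤ) * q.num ^ 2 = k * (q.den:ℤ) ^ 2 := by
    have h2 : q * q.den = q.num := Rat.mul_den_eq_num q
    have : (N:ℚ) * (q.num:ℚ) ^ 2 = k * (q.den:ℚ) ^ 2 := by
      rw [← h2, mul_pow, ← mul_assoc, h]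
    exact_mod_cast this
  have h3 : ((q.den : ℤ)) ^ 2 ∣ (N:ℤ) * q.num ^ 2 := ⟨k, by rw [h1]; ring⟩
  have h4 : IsCoprime ((q.den : ℤ) ^ 2) (q.num ^ 2) := by
    apply IsCoprime.pow
    rw [Int.isCoprime_iff_gcd_eq_one]
    have := q.reduced
    rw [Int.gcd_comm]
    simpa [Int.gcd, Nat.Coprime] using this
  have h5 : ((q.den : ℤ)) ^ 2 ∣ (N:ℤ) := h4.dvd_of_dvd_mul_right h3
  have h6 : q.den ^ 2 ∣ N := by exact_mod_cast h5
  have h7 : IsUnit q.den := hN q.den (by rw [← sq]; exact h6)
  rw [Nat.isUnit_iff] at h7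
  exact ⟨q.num, by rw [← Rat.mul_den_eq_num q, h7]; simp⟩

/-- coefficients of integral elements have 2-power denominators -/
lemma denom (P : Finset ℕ) (hP : ∀ p ∈ P, p.Prime) : ∀ (c : Finset ℕ → ℚ) (m : ℝ) (N : ℕ),
    Squarefree N → m ^ 2 = N → (∀ p ∈ P, ¬ p ∣ N) → (∀ S, IsIntegral ℤ (m * cj P c S)) →
    ∀ A ⊆ P, ∃ n : ℤ, (n:ℚ) = 2 ^ P.card * c A := by
  induction P using Finset.induction_on with
  | empty =>
    intro c m N hN hm _ hi A hA
    rw [Finset.subset_empty.mp hA]
    have h1 := hi ∅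
    rw [cj_empty] at h1
    have h2 := h1.pow 2
    rw [mul_pow, hm] at h2
    have h3 : IsIntegral ℤ (((N * (c ∅)^2 : ℚ)) : ℝ) := by push_cast; exact h2
    obtain ⟨k, hk⟩ := rat_int h3
    obtain ⟨n, hn⟩ := sf_rat hN hk.symm
    exact ⟨n, by simpa using hn⟩
  | insert p P hp ih =>
    intro c m N hN hm hpN hi A hA
    have hpp : p.Prime := hP p (Finset.mem_insert_self _ _)
    have ih' := ih (fun q hq => hP q (Finset.mem_insert_of_mem hq))
    have hnot : ∀ (d : Finset ℕ → ℚ) (S : Finset ℕ), cj P d (S.erase p) = cj P d S := by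
      intro d S
      apply cj_S_congr
      intro q hq
      have hqp : q ≠ p := fun h => hp (h ▸ hq)
      simp [hqp]
    have hnot' : ∀ (d : Finset ℕ → ℚ) (S : Finset ℕ), cj P d (insert p S) = cj P d S := by
      intro d S
      apply cj_S_congr
      intro q hq
      have hqp : q ≠ p := fun h => hp (h ▸ hq)
      simp [hqp]
    have hsum : ∀ S, IsIntegral ℤ (m * cj P (fun A => 2 * c A) S) := by
      intro S
      have h1 := (hi (S.erase p)).add (hi (insert p S))
      rw [cj_insert hp, cj_insert hp, hnot, hnot, hnot', hnot', sg_erase, sg_insert] at h1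
      rw [cj_smul]
      exact int_congr h1 (by push_cast; ring)
    have hdiff : ∀ S, IsIntegral ℤ ((m * √(p:ℝ)) * cj P (fun A => 2 * c (insert p A)) S) := by
      intro S
      have h1 := (hi (S.erase p)).sub (hi (insert p S))
      rw [cj_insert hp, cj_insert hp, hnot, hnot, hnot', hnot', sg_erase, sg_insert] at h1
      rw [cj_smul]
      exact int_congr h1 (by push_cast; ring)
    rw [Finset.card_insert_of_notMem hp]
    by_cases hpA : p ∈ A
    · have hcop : Nat.Coprime N p :=
        ((Nat.Prime.coprime_iff_not_dvd hpp).mpr (hpN p (Finset.mem_insert_self _ _))).symm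
      obtain ⟨n, hn⟩ := ih' _ (m * √(p:ℝ)) (N * p) ((Nat.squarefree_mul hcop).mpr
        ⟨hN, hpp.prime.squarefree⟩) (by
          rw [mul_pow, hm, Real.sq_sqrt (Nat.cast_nonneg p)]; push_cast; rfl)
        (by
          intro q hq hqd
          rcases (Nat.Prime.dvd_mul (hP q (Finset.mem_insert_of_mem hq))).mp hqd with h | h
          · exact hpN q (Finset.mem_insert_of_mem hq) h
          · have := (Nat.prime_dvd_prime_iff_eq (hP q (Finset.mem_insert_of_mem hq)) hpp).mp h
            exact hp (this ▸ hq)) hdiff (A.erase p) (by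
          intro x hx
          rw [Finset.mem_erase] at hx
          have := hA hx.2
          rw [Finset.mem_insert] at this
          exact this.resolve_left hx.1)
      refine ⟨n, ?_⟩
      rw [hn, Finset.insert_erase hpA]; ring
    · obtain ⟨n, hn⟩ := ih' _ m N hN hm (fun q hq => hpN q (Finset.mem_insert_of_mem hq)) hsum A (by
        intro x hx
        have := hA hx
        rw [Finset.mem_insert] at this
        exact this.resolve_left (fun h => hpA (h ▸ hx)))
      refine ⟨n, ?_⟩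
      rw [hn]; ring

lemma denom' {P : Finset ℕ} (hP : ∀ p ∈ P, p.Prime) {c : Finset ℕ → ℚ}
    (hi : ∀ S, IsIntegral ℤ (cj P c S)) : ∀ A ⊆ P, ∃ n : ℤ, (n:ℚ) = 2 ^ P.card * c A := by
  apply denom P hP c 1 1 squarefree_one (by norm_num)
  · intro p hp h
    exact (hP p hp).one_lt.ne' (Nat.dvd_one.mp h)
  · intro S; rw [one_mul]; exact hi S

/-- a 2-power multiple of any evaluation is integral -/
lemma ev_integral {R : Type*} [Field R] [CharZero R] {g : ℕ → R} {P : Finset ℕ}
    {c : Finset ℕ → ℚ} {k : ℕ} (hc : ∀ A ⊆ P, ∃ n : ℤ, (n:ℚ) = 2 ^ k * c A)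
    (hg : ∀ p ∈ P, IsIntegral ℤ (g p)) : IsIntegral ℤ (2 ^ k * ev g P c) := by
  unfold ev
  rw [Finset.mul_sum]
  apply IsIntegral.sum
  intro A hA
  obtain ⟨n, hn⟩ := hc A (Finset.mem_powerset.mp hA)
  have : (2:R) ^ k * (((c A : ℚ) : R) * ∏ p ∈ A, g p) = (n:R) * ∏ p ∈ A, g p := by
    have h2 : (n : R) = 2 ^ k * ((c A : ℚ) : R) := by
      have := congrArg (fun x : ℚ => (x : R)) hn
      push_cast at this
      exact this
    rw [h2]; ring
  rw [this]
  apply IsIntegral.mul
  · exact isIntegral_algebraMap (R := ℤ) (A := R) (x := n)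
  · apply IsIntegral.prod
    intro p hp
    exact hg p (Finset.mem_powerset.mp hA hp)

lemma sqrt_integral (p : ℕ) : IsIntegral ℤ (√(p:ℝ)) := by
  apply IsIntegral.of_pow (n := 2) (by norm_num)
  rw [Real.sq_sqrt (Nat.cast_nonneg p)]
  exact isIntegral_algebraMap (R := ℤ) (A := ℝ) (x := (p:ℤ))

lemma sg_integral (S : Finset ℕ) (p : ℕ) : IsIntegral ℤ (sg S p) := by
  unfold sg; split_ifs
  · exact isIntegral_one.neg
  · exact isIntegral_one

lemma bezout_integral {R : Type*} [CommRing R] {x : R} {a : ℤ} {b : ℤ} (hab : IsCoprime a b)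
    (h1 : IsIntegral ℤ ((a:R) * x)) (h2 : IsIntegral ℤ ((b:R) * x)) : IsIntegral ℤ x := by
  obtain ⟨u, v, huv⟩ := hab
  have h3 : x = (u:R) * ((a:R) * x) + (v:R) * ((b:R) * x) := by
    have : ((u * a + v * b : ℤ) : R) = 1 := by rw [huv]; simp
    push_cast at this
    linear_combination (-x) * this
  rw [h3]
  exact (((isIntegral_algebraMap (R := ℤ) (A := R) (x := u))).mul h1).add
    (((isIntegral_algebraMap (R := ℤ) (A := R) (x := v))).mul h2)

/-- Northcott-type bound on the support -/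
lemma support_bound {P : Finset ℕ} (hP : ∀ p ∈ P, p.Prime) {c : Finset ℕ → ℚ}
    (hi : ∀ S, IsIntegral ℤ (cj P c S)) {A₀ : Finset ℕ} (hA : A₀ ⊆ P) (hc : c A₀ ≠ 0)
    {p : ℕ} (hp : p ∈ A₀) : (p:ℝ) ≤ 4 * T P c := by
  have hpp : p.Prime := hP p (hA hp)
  rcases hpp.eq_two_or_odd' with h2 | hodd
  · have := one_le_T hP hi hA hc
    rw [h2]; push_cast; linarith
  set P' := P.erase p with hP'
  have hpP' : p ∉ P' := Finset.notMem_erase p P
  have hPe : P = insert p P' := (Finset.insert_erase (hA hp)).symm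
  have hsub : P' ⊆ P := Finset.erase_subset p P
  set c' : Finset ℕ → ℚ := fun A => c (insert p A) with hc'
  have hnot : ∀ (d : Finset ℕ → ℚ) (S : Finset ℕ), cj P' d (S.erase p) = cj P' d S := by
    intro d S
    apply cj_S_congr
    intro q hq
    have hqp : q ≠ p := fun h => hpP' (h ▸ hq)
    simp [hqp]
  have hnot' : ∀ (d : Finset ℕ → ℚ) (S : Finset ℕ), cj P' d (insert p S) = cj P' d S := by
    intro d S
    apply cj_S_congr
    intro q hq
    have hqp : q ≠ p := fun h => hpP' (h ▸ hq)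
    simp [hqp]
  have hden := denom' hP hi
  have hden' : ∀ A ⊆ P', ∃ n : ℤ, (n:ℚ) = 2 ^ P.card * c' A := by
    intro A hA'
    apply hden
    intro x hx
    rw [Finset.mem_insert] at hx
    rcases hx with rfl | hx
    · exact hA hp
    · exact hsub (hA' hx)
  have hint : ∀ S, IsIntegral ℤ (cj P' (fun A => 2 * c' A) S) := by
    intro S
    rw [cj_smul]
    have h1 := (hi (S.erase p)).sub (hi (insert p S))
    rw [hPe, cj_insert hpP', cj_insert hpP', hnot, hnot, hnot', hnot', sg_erase, sg_insert] at h1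
    have h3 : IsIntegral ℤ ((p:ℝ) * (2 * cj P' c' S) ^ 2) := by
      have h4 := h1.pow 2
      have hp2 : √(p:ℝ) ^ 2 = p := Real.sq_sqrt (Nat.cast_nonneg p)
      exact int_congr h4 (by linear_combination ((2 * cj P' c' S) ^ 2) * hp2)
    have h5 : IsIntegral ℤ (((2:ℝ) ^ P.card * cj P' c' S)) := by
      unfold cj
      apply ev_integral hden'
      intro q _
      exact (sg_integral S q).mul (sqrt_integral q)
    have h6 : IsIntegral ℤ ((((4 ^ P.card : ℤ)) : ℝ) * (2 * cj P' c' S) ^ 2) := by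
      have h7 := (h5.pow 2).mul (isIntegral_algebraMap (R := ℤ) (A := ℝ) (x := (4:ℤ)))
      refine int_congr h7 ?_
      have e4 : ((2:ℝ) ^ P.card) ^ 2 = 4 ^ P.card := by
        rw [← pow_mul, mul_comm, pow_mul]; norm_num
      have e5 : (algebraMap ℤ ℝ) 4 = 4 := by simp
      rw [mul_pow, e4, e5]
      push_cast
      ring
    have h8 : IsCoprime ((p:ℤ)) (4 ^ P.card : ℤ) := by
      apply IsCoprime.pow_right
      have : Nat.Coprime p 4 := by
        rw [show (4:ℕ) = 2 ^ 2 by norm_num]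
        apply Nat.Coprime.pow_right
        exact (Nat.coprime_two_right).mpr hodd
      exact_mod_cast Nat.isCoprime_iff_coprime.mpr this
    have h9 : IsIntegral ℤ ((2 * cj P' c' S) ^ 2) :=
      bezout_integral h8 (by push_cast; exact h3) h6
    have h10 := IsIntegral.of_pow (n := 2) (by norm_num) h9
    push_cast
    exact h10
  have hc'' : (fun A => 2 * c' A) (A₀.erase p) ≠ 0 := by
    simp only [hc', Finset.insert_erase hp]
    exact mul_ne_zero two_ne_zero hc
  have h11 := one_le_T (fun q hq => hP q (hsub hq)) hint (A₀ := A₀.erase p)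
    (Finset.erase_subset_erase p hA) hc''
  rw [T_smul] at h11
  have h12 : T P c = T P' c + p * T P' c' := by
    rw [hPe]; exact T_insert hpP' c
  have h13 := T_nonneg P' c
  have hp0 : (0:ℝ) ≤ p := Nat.cast_nonneg p
  rw [h12]
  push_cast at h11
  nlinarith

end Pool.Agent.H421MQ
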