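import Mathlib
import Pool.Agent.H421MQ.Norm

open Finset

namespace Pool.Agent.H421MQ

/-- the field -/
noncomputable abbrev KF (S : Set ℕ) : IntermediateField ℚ ℝ :=
  IntermediateField.adjoin ℚ ((fun d : ℕ => Real.sqrt (d : ℝ)) '' S)

noncomputable def rr (A : Finset ℕ) : ℝ := ∏ p ∈ A, √(p:ℝ)

/-- product of the primes -/
def pr (A : Finset ℕ) : ℕ := ∏ p ∈ A, p

lemma rr_sq (A : Finset ℕ) : rr A ^ 2 = pr A := by
  unfold rr pr
  rw [← Finset.prod_pow]
  push_cast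
  apply Finset.prod_congr rfl
  intro p _
  exact Real.sq_sqrt (Nat.cast_nonneg p)

lemma pr_pos {A : Finset ℕ} (hA : ∀ p ∈ A, p.Prime) : 0 < pr A :=
  Finset.prod_pos (fun p hp => (hA p hp).pos)

lemma rr_pos {A : Finset ℕ} (hA : ∀ p ∈ A, p.Prime) : 0 < rr A :=
  Finset.prod_pos (fun p hp => Real.sqrt_pos.mpr (by exact_mod_cast (hA p hp).pos))

lemma rr_mul (A B : Finset ℕ) : rr A * rr B = pr (A ∩ B) * rr (symmDiff A B) := by
  have h1 : rr A = rr (A \ B) * rr (A ∩ B) := by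
    unfold rr
    rw [← Finset.prod_union (Finset.disjoint_sdiff_inter A B), Finset.sdiff_union_inter]
  have h2 : rr B = rr (B \ A) * rr (A ∩ B) := by
    unfold rr
    rw [Finset.inter_comm, ← Finset.prod_union (Finset.disjoint_sdiff_inter B A),
      Finset.sdiff_union_inter]
  have h3 : rr (symmDiff A B) = rr (A \ B) * rr (B \ A) := by
    unfold rr
    rw [symmDiff_def, Finset.sup_eq_union, Finset.prod_union]
    exact disjoint_sdiff_sdiff
  rw [h1, h2, h3, ← rr_sq]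
  ring

def Vset (S : Set ℕ) (A : Finset ℕ) : Prop := (∀ p ∈ A, p.Prime) ∧ rr A ∈ KF S

lemma V_symm {S : Set ℕ} {A B : Finset ℕ} (hA : Vset S A) (hB : Vset S B) :
    Vset S (symmDiff A B) := by
  refine ⟨?_, ?_⟩
  · intro p hp
    rw [Finset.mem_symmDiff] at hp
    rcases hp with h | h
    · exact hA.1 p h.1
    · exact hB.1 p h.1
  · have h1 := rr_mul A B
    have hpos : (0:ℝ) < pr (A ∩ B) := by
      exact_mod_cast pr_pos (fun p hp => hA.1 p (Finset.mem_inter.mp hp).1)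
    have h2 : rr (symmDiff A B) = rr A * rr B * ((pr (A ∩ B) : ℕ) : ℝ)⁻¹ := by
      rw [h1]; field_simp
    rw [h2]
    exact (KF S).mul_mem ((KF S).mul_mem hA.2 hB.2) ((KF S).inv_mem (natCast_mem (KF S) _))

lemma V_empty (S : Set ℕ) : Vset S ∅ := by
  refine ⟨by simp, ?_⟩
  unfold rr
  simp only [Finset.prod_empty]
  exact (KF S).one_mem

def Mon (S : Set ℕ) (x : ℝ) : Prop := ∃ A, Vset S A ∧ ∃ q : ℚ, x = q * rr A

lemma Mon_sqrt {S : Set ℕ} {d : ℕ} (hd : d ∈ S) : Mon S (√(d:ℝ)) := by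
  rcases Nat.eq_zero_or_pos d with h0 | hpos
  · refine ⟨∅, V_empty S, 0, ?_⟩
    rw [h0]; simp
  · obtain ⟨a, b, hab, hsf⟩ := Nat.sq_mul_squarefree d
    -- b ^ 2 * a = d
    have hbpos : 0 < b := by
      rcases Nat.eq_zero_or_pos b with h | h
      · rw [h] at hab; simp at hab; omega
      · exact h
    have hP : ∀ p ∈ a.primeFactors, p.Prime := fun p hp => Nat.prime_of_mem_primeFactors hp
    have hpr : pr a.primeFactors = a := Nat.prod_primeFactors_of_squarefree hsf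
    have hrr : rr a.primeFactors = √(a:ℝ) := by
      have h1 := rr_sq a.primeFactors
      rw [hpr] at h1
      rw [← h1, Real.sqrt_sq (rr_pos hP).le]
    have hd' : √(d:ℝ) = b * rr a.primeFactors := by
      rw [hrr, ← hab]
      push_cast
      rw [Real.sqrt_mul (by positivity), Real.sqrt_sq (by positivity)]
    refine ⟨a.primeFactors, ⟨hP, ?_⟩, b, ?_⟩
    · have h2 : rr a.primeFactors = √(d:ℝ) * ((b:ℕ):ℝ)⁻¹ := by
        rw [hd']
        have : (b:ℝ) ≠ 0 := by exact_mod_cast hbpos.ne'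
        field_simp
      rw [h2]
      apply (KF S).mul_mem _ ((KF S).inv_mem (natCast_mem (KF S) _))
      exact IntermediateField.subset_adjoin ℚ _ ⟨d, hd, rfl⟩
    · rw [hd']; push_cast; rfl

lemma Mon_mul {S : Set ℕ} {x y : ℝ} (hx : Mon S x) (hy : Mon S y) : Mon S (x * y) := by
  obtain ⟨A, hA, q, rfl⟩ := hx
  obtain ⟨B, hB, q', rfl⟩ := hy
  refine ⟨symmDiff A B, V_symm hA hB, q * q' * pr (A ∩ B), ?_⟩
  have := rr_mul A B
  push_cast
  linear_combination (q * q' : ℝ) * this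

def Rep (S : Set ℕ) (z : ℝ) : Prop := ∃ (P : Finset ℕ) (c : Finset ℕ → ℚ),
  (∀ p ∈ P, p.Prime) ∧ (∀ A, c A ≠ 0 → A ⊆ P) ∧ (∀ A, c A ≠ 0 → Vset S A) ∧ z = cj P c ∅

lemma cj_mono {P P' : Finset ℕ} (hP : P ⊆ P') {c : Finset ℕ → ℚ} (h : ∀ A, c A ≠ 0 → A ⊆ P)
    (S : Finset ℕ) : cj P' c S = cj P c S := ev_mono _ hP h

lemma T_mono {P P' : Finset ℕ} (hP : P ⊆ P') {c : Finset ℕ → ℚ} (h : ∀ A, c A ≠ 0 → A ⊆ P) :
    T P' c = T P c := ev_mono _ hP (fun A hA => h A (fun h0 => hA (by rw [h0]; simp)))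

lemma Rep_mono {S : Set ℕ} {x : ℝ} (hx : Mon S x) : Rep S x := by
  obtain ⟨A, hA, q, rfl⟩ := hx
  refine ⟨A, fun B => if B = A then q else 0, hA.1, ?_, ?_, ?_⟩
  · intro B hB
    by_cases h : B = A
    · rw [h]
    · simp [h] at hB
  · intro B hB
    by_cases h : B = A
    · rw [h]; exact hA
    · simp [h] at hB
  · unfold cj ev
    rw [Finset.sum_eq_single A]
    · simp [rr, sg]
    · intro B _ hB; simp [hB]
    · intro h; exact absurd (Finset.mem_powerset.mpr (Finset.Subset.refl A)) h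

lemma Rep_add {S : Set ℕ} {x y : ℝ} (hx : Rep S x) (hy : Rep S y) : Rep S (x + y) := by
  obtain ⟨P, c, h1, h2, h3, rfl⟩ := hx
  obtain ⟨P', c', h1', h2', h3', rfl⟩ := hy
  refine ⟨P ∪ P', fun A => c A + c' A, ?_, ?_, ?_, ?_⟩
  · intro p hp
    rcases Finset.mem_union.mp hp with h | h
    · exact h1 p h
    · exact h1' p h
  · intro A hA
    by_cases h : c A = 0
    · have : c' A ≠ 0 := by intro h'; apply hA; simp [h, h']
      exact (h2' A this).trans Finset.subset_union_right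
    · exact (h2 A h).trans Finset.subset_union_left
  · intro A hA
    by_cases h : c A = 0
    · have : c' A ≠ 0 := by intro h'; apply hA; simp [h, h']
      exact h3' A this
    · exact h3 A h
  · rw [cj_add, cj_mono Finset.subset_union_left h2, cj_mono Finset.subset_union_right h2']

lemma Rep_smul {S : Set ℕ} {x : ℝ} (q : ℚ) (hx : Rep S x) : Rep S (q * x) := by
  obtain ⟨P, c, h1, h2, h3, rfl⟩ := hx
  refine ⟨P, fun A => q * c A, h1, ?_, ?_, ?_⟩
  · intro A hA; exact h2 A (fun h => hA (by simp [h]))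
  · intro A hA; exact h3 A (fun h => hA (by simp [h]))
  · rw [cj_smul]

lemma Rep_zero (S : Set ℕ) : Rep S 0 := by
  refine ⟨∅, fun _ => 0, by simp, by simp, by simp, ?_⟩
  rw [cj_empty]; simp

theorem repr {S : Set ℕ} {z : ℝ} (hz : z ∈ KF S) : Rep S z := by
  have halg : ∀ x ∈ ((fun d : ℕ => Real.sqrt (d : ℝ)) '' S), IsAlgebraic ℚ x := by
    rintro _ ⟨d, _, rfl⟩
    have h1 : IsIntegral ℤ (√(d:ℝ)) := sqrt_integral d
    exact (h1.tower_top (A := ℚ)).isAlgebraic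
  have h1 : z ∈ (KF S).toSubalgebra := hz
  rw [IntermediateField.adjoin_toSubalgebra_of_isAlgebraic halg] at h1
  have h2 : z ∈ Subalgebra.toSubmodule (Algebra.adjoin ℚ ((fun d : ℕ => Real.sqrt (d : ℝ)) '' S)) := h1
  rw [Algebra.adjoin_eq_span] at h2
  refine Submodule.span_induction (p := fun x _ => Rep S x) ?_ ?_ ?_ ?_ h2
  · intro x hx
    apply Rep_mono
    refine Submonoid.closure_induction (motive := fun x _ => Mon S x) ?_ ?_ ?_ hx
    · rintro _ ⟨d, hd, rfl⟩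
      exact Mon_sqrt hd
    · exact ⟨∅, V_empty S, 1, by simp [rr]⟩
    · intro x y _ _ hx hy
      exact Mon_mul hx hy
  · exact Rep_zero S
  · intro x y _ _ hx hy
    exact Rep_add hx hy
  · intro q x _ hx
    have := Rep_smul q hx
    rwa [show q • x = (q:ℝ) * x from Rat.smul_def q x]

/-- infinitely many monomials -/
lemma V_inf {S : Set ℕ} (hinf : ¬ FiniteDimensional ℚ (KF S)) (P : Finset ℕ) :
    ∃ A, Vset S A ∧ ¬ A ⊆ P := by
  by_contra hcon
  push Not at hcon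
  apply hinf
  have hle : Subalgebra.toSubmodule (KF S).toSubalgebra
      ≤ Submodule.span ℚ ((fun A => rr A) '' (P.powerset : Set (Finset ℕ))) := by
    intro z hz
    obtain ⟨P', c, h1, h2, h3, rfl⟩ := repr (S := S) hz
    unfold cj ev
    apply Submodule.sum_mem
    intro A _
    by_cases h : c A = 0
    · rw [h]; simp
    · have h4 : A ⊆ P := hcon A (h3 A h)
      have h5 : (((c A : ℚ) : ℝ) * ∏ p ∈ A, (sg ∅ p * √(p:ℝ))) = (c A) • rr A := by
        rw [Rat.smul_def]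
        congr 1
        unfold rr
        apply Finset.prod_congr rfl
        intro p _
        simp [sg]
      rw [h5]
      apply Submodule.smul_mem
      apply Submodule.subset_span
      exact ⟨A, by simpa using h4, rfl⟩
  have hfin : FiniteDimensional ℚ (Submodule.span ℚ ((fun A => rr A) '' (P.powerset : Set (Finset ℕ)))) :=
    FiniteDimensional.span_of_finite ℚ (Set.Finite.image _ (Finset.finite_toSet _))
  exact Submodule.finiteDimensional_of_le hle

lemma V_odd {S : Set ℕ} (hinf : ¬ FiniteDimensional ℚ (KF S)) (P : Finset ℕ) :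
    ∃ A, Vset S A ∧ 2 ∉ A ∧ ¬ A ⊆ P := by
  obtain ⟨A, hA, hAP⟩ := V_inf hinf P
  by_cases h2 : 2 ∈ A
  · obtain ⟨B, hB, hBP⟩ := V_inf hinf (P ∪ A)
    by_cases h3 : 2 ∈ B
    · refine ⟨symmDiff A B, V_symm hA hB, ?_, ?_⟩
      · rw [Finset.mem_symmDiff]; tauto
      · intro h
        obtain ⟨x, hx, hx'⟩ := Finset.not_subset.mp hBP
        rw [Finset.mem_union, not_or] at hx'
        apply hx'.1
        apply h
        rw [Finset.mem_symmDiff]
        exact Or.inr ⟨hx, hx'.2⟩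
    · exact ⟨B, hB, h3, fun h => hBP (h.trans Finset.subset_union_left)⟩
  · exact ⟨A, hA, h2, hAP⟩

/-- the minimal odd element outside `P` -/
lemma V_min {S : Set ℕ} (hinf : ¬ FiniteDimensional ℚ (KF S)) (P : Finset ℕ) :
    ∃ A, Vset S A ∧ 2 ∉ A ∧ ¬ A ⊆ P ∧ ∀ B, Vset S B → 2 ∉ B → ¬ B ⊆ P → pr A ≤ pr B := by
  classical
  have hex : ∃ n, ∃ A, Vset S A ∧ 2 ∉ A ∧ ¬ A ⊆ P ∧ pr A = n := by
    obtain ⟨A, h1, h2, h3⟩ := V_odd hinf P
    exact ⟨pr A, A, h1, h2, h3, rfl⟩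
  obtain ⟨A, h1, h2, h3, h4⟩ := Nat.find_spec hex
  refine ⟨A, h1, h2, h3, ?_⟩
  intro B hB1 hB2 hB3
  rw [h4]
  exact Nat.find_min' hex ⟨B, hB1, hB2, hB3, rfl⟩

lemma pr_inj {A B : Finset ℕ} (hA : ∀ p ∈ A, p.Prime) (hB : ∀ p ∈ B, p.Prime)
    (h : pr A = pr B) : A = B := by
  have h1 : (pr A).primeFactors = A := Nat.primeFactors_prod hA
  have h2 : (pr B).primeFactors = B := Nat.primeFactors_prod hB
  rw [← h1, ← h2, h]

lemma pr_odd {A : Finset ℕ} (hA : ∀ p ∈ A, p.Prime) (h2 : 2 ∉ A) : Odd (pr A) := by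
  unfold pr
  apply Finset.prod_induction _ Odd (fun a b ha hb => ha.mul hb) odd_one
  intro p hp
  exact (hA p hp).odd_of_ne_two (fun h => h2 (h ▸ hp))

lemma le_pr {A : Finset ℕ} (hA : ∀ p ∈ A, p.Prime) {p : ℕ} (hp : p ∈ A) : p ≤ pr A :=
  Nat.le_of_dvd (pr_pos hA) (Finset.dvd_prod_of_mem _ hp)

lemma x_integral {A B : Finset ℕ} (h : ∃ e : ℤ, (pr A : ℤ) - pr B = 4 * e) :
    IsIntegral ℤ ((rr A + rr B) / 2) := by
  obtain ⟨e, he⟩ := h
  have h1 : ((pr A : ℤ) : ℝ) - ((pr B : ℤ) : ℝ) = 4 * e := by exact_mod_cast he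
  push_cast at h1
  have hA := rr_sq A
  have hB := rr_sq B
  refine ⟨Polynomial.X ^ 4 + (Polynomial.C (-((pr B : ℤ) + 2 * e)) * Polynomial.X ^ 2
    + Polynomial.C (e ^ 2)), ?_, ?_⟩
  · apply Polynomial.monic_X_pow_add
    apply lt_of_le_of_lt (b := (2 : WithBot ℕ))
    · apply le_trans (Polynomial.degree_add_le _ _)
      apply max_le
      · exact Polynomial.degree_C_mul_X_pow_le 2 _
      · exact le_trans Polynomial.degree_C_le (by norm_num)
    · norm_num
  · simp only [Polynomial.eval₂_add, Polynomial.eval₂_mul, Polynomial.eval₂_pow,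
      Polynomial.eval₂_X, Polynomial.eval₂_C]
    simp only [algebraMap_int_eq, eq_intCast]
    push_cast
    have hA' : rr A ^ 2 = pr B + 4 * e := by rw [hA]; linarith
    have h4 : rr A ^ 4 = (pr B + 4 * e) ^ 2 := by
      rw [show rr A ^ 4 = (rr A ^ 2) ^ 2 by ring, hA']
    have h5 : rr B ^ 4 = (pr B : ℝ) ^ 2 := by
      rw [show rr B ^ 4 = (rr B ^ 2) ^ 2 by ring, hB]
    have h6 : rr A ^ 3 = (pr B + 4 * e) * rr A := by
      rw [show rr A ^ 3 = rr A ^ 2 * rr A by ring, hA']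
    have h7 : rr B ^ 3 = (pr B : ℝ) * rr B := by
      rw [show rr B ^ 3 = rr B ^ 2 * rr B by ring, hB]
    have : ((rr A + rr B) / 2) ^ 4 + (-(((pr B:ℕ):ℝ) + 2 * e) * ((rr A + rr B) / 2) ^ 2 + (e:ℝ) ^ 2)
      = (rr A ^ 4 + 4 * rr A ^ 3 * rr B + 6 * rr A ^ 2 * rr B ^ 2 + 4 * rr A * rr B ^ 3 + rr B ^ 4) / 16
        - (((pr B:ℕ):ℝ) + 2 * e) * (rr A ^ 2 + 2 * rr A * rr B + rr B ^ 2) / 4 + (e:ℝ) ^ 2 := by ring
    rw [this, h4, h5, h6, h7, hA', hB]
    ring

/-- finiteness of integral elements of bounded trace form supported in `P` -/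
lemma northcott (P : Finset ℕ) (hP : ∀ p ∈ P, p.Prime) (C : ℝ) :
    {ζ : ℝ | ∃ c : Finset ℕ → ℚ, (∀ S, IsIntegral ℤ (cj P c S)) ∧ T P c ≤ C ∧ ζ = cj P c ∅}.Finite := by
  classical
  set M : ℤ := ⌈(2:ℝ) ^ P.card * (|C| + 1)⌉ with hM
  have hfin : (Set.Icc (fun _ : P.powerset => -M) (fun _ : P.powerset => M)).Finite :=
    Set.finite_Icc _ _
  apply (hfin.image (fun d : P.powerset → ℤ =>
    ∑ A : P.powerset, ((d A : ℝ) / 2 ^ P.card) * ∏ p ∈ A.1, (sg ∅ p * √(p:ℝ)))).subset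
  rintro ζ ⟨c, hi, hT, rfl⟩
  have hden := denom' hP hi
  choose f hf using hden
  refine ⟨fun A => f A.1 (Finset.mem_powerset.mp A.2), ?_, ?_⟩
  · have hb : ∀ A (hA : A ⊆ P), |((f A hA : ℤ) : ℝ)| ≤ M := by
      intro A hA
      have h1 : ((c A : ℚ) : ℝ) ^ 2 ≤ C := by
        refine le_trans ?_ hT
        unfold T ev
        have h2 : ((c A : ℚ) : ℝ) ^ 2 ≤ (((c A ^ 2 : ℚ)) : ℝ) * ∏ p ∈ A, (p:ℝ) := by
          push_cast
          have h3 : (1:ℝ) ≤ ∏ p ∈ A, (p:ℝ) := by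
            have : 1 ≤ pr A := pr_pos (fun p hp => hP p (hA hp))
            unfold pr at this
            have h3' : ((1:ℕ):ℝ) ≤ ((∏ p ∈ A, p : ℕ):ℝ) := Nat.cast_le.mpr this
            push_cast at h3'
            exact h3'
          nlinarith [sq_nonneg ((c A : ℚ) : ℝ)]
        refine le_trans h2 (Finset.single_le_sum (f := fun A => (((c A ^ 2 : ℚ)) : ℝ) * ∏ p ∈ A, (p:ℝ))
          (fun B _ => ?_) (Finset.mem_powerset.mpr hA))
        apply mul_nonneg
        · positivity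
        · apply Finset.prod_nonneg; intro p _; positivity
      have h4 : |((c A : ℚ) : ℝ)| ≤ |C| + 1 := by
        have h5 : C ≤ |C| := le_abs_self C
        have h6 := abs_nonneg C
        have h7 : |((c A : ℚ) : ℝ)| ^ 2 ≤ |C| := by rw [sq_abs]; linarith
        nlinarith [abs_nonneg ((c A : ℚ) : ℝ)]
      have h8 : ((f A hA : ℤ) : ℝ) = 2 ^ P.card * ((c A : ℚ) : ℝ) := by
        have := congrArg (fun x : ℚ => (x : ℝ)) (hf A hA)
        push_cast at this
        exact this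
      rw [h8, abs_mul, abs_of_nonneg (by positivity : (0:ℝ) ≤ 2 ^ P.card)]
      refine le_trans (mul_le_mul_of_nonneg_left h4 (by positivity)) ?_
      exact Int.le_ceil _
    rw [Set.mem_Icc]
    constructor
    · intro A
      have := hb A.1 (Finset.mem_powerset.mp A.2)
      rw [abs_le] at this
      exact_mod_cast this.1
    · intro A
      have := hb A.1 (Finset.mem_powerset.mp A.2)
      rw [abs_le] at this
      exact_mod_cast this.2
  · simp only
    unfold cj ev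
    rw [← Finset.sum_coe_sort P.powerset]
    apply Finset.sum_congr rfl
    intro A _
    congr 1
    have := congrArg (fun x : ℚ => (x : ℝ)) (hf A.1 (Finset.mem_powerset.mp A.2))
    push_cast at this
    rw [this]
    field_simp

end Pool.Agent.H421MQ
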