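import Mathlib
import Pool.Agent.H421MQ.Norm

open Finset

namespace Pool.Agent.H421MQ

lemma quad_integral {t b c : ℂ} (hb : IsIntegral ℤ b) (hc : IsIntegral ℤ c)
    (h : t ^ 2 - b * t + c = 0) : IsIntegral ℤ t := by
  have h1 : IsIntegral (integralClosure ℤ ℂ) t := by
    refine ⟨Polynomial.X ^ 2 + (Polynomial.C (-(⟨b, hb⟩ : integralClosure ℤ ℂ)) * Polynomial.X
      + Polynomial.C ⟨c, hc⟩), ?_, ?_⟩
    · apply Polynomial.monic_X_pow_add
      apply lt_of_le_of_lt (Polynomial.degree_linear_le)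
      norm_num
    · simp only [Polynomial.eval₂_add, Polynomial.eval₂_pow, Polynomial.eval₂_X,
        Polynomial.eval₂_mul, Polynomial.eval₂_C]
      rw [← h]
      simp only [map_neg]
      change t ^ 2 + (-b * t + c) = t ^ 2 - b * t + c
      ring
  exact isIntegral_trans (R := ℤ) (A := integralClosure ℤ ℂ) t h1

lemma int_integral {R : Type*} [CommRing R] (n : ℤ) : IsIntegral ℤ ((n : ℤ) : R) :=
  isIntegral_algebraMap (R := ℤ) (A := R) (x := n)

lemma step_integral {X Y r κ : ℂ} {q η e : ℤ} {k : ℕ} (hr : r ^ 2 = q) (hκ : κ ^ 2 = η)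
    (hη : q - η = 4 * e) (hodd : Odd q)
    (hu : IsIntegral ℤ (X + r * Y)) (hv : IsIntegral ℤ (X - r * Y))
    (h2 : IsIntegral ℤ (2 ^ k * (X + κ * Y))) : IsIntegral ℤ (X + κ * Y) := by
  have h1 : IsIntegral ℤ ((q:ℂ) * (X + κ * Y)) := by
    apply quad_integral (b := (q:ℂ) * ((X + r * Y) + (X - r * Y)))
      (c := (q:ℂ) ^ 2 * ((X + r * Y) * (X - r * Y)) + (q:ℂ) * e * ((X + r * Y) - (X - r * Y)) ^ 2)
    · exact (int_integral q).mul (hu.add hv)
    · exact (((int_integral q).pow 2).mul (hu.mul hv)).add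
        (((int_integral q).mul (int_integral e)).mul ((hu.sub hv).pow 2))
    · have hη' : (q:ℂ) - η = 4 * e := by exact_mod_cast hη
      linear_combination (q:ℂ)^2 * Y^2 * hκ + (-(q:ℂ)^2 * Y^2 + 4 * q * e * Y^2) * hr
        - (q:ℂ)^2 * Y^2 * hη'
  have hcop : IsCoprime q ((2:ℤ) ^ k) := by
    apply IsCoprime.pow_right
    obtain ⟨t, ht⟩ := hodd
    exact ⟨1, -t, by rw [ht]; ring⟩
  exact bezout_integral hcop h1 (by push_cast; exact h2)

/-- Gaussian integers -/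
lemma gauss_int {x y : ℚ} (h : IsIntegral ℤ ((x:ℂ) + (y:ℂ) * Complex.I)) :
    (∃ a : ℤ, (a:ℚ) = x) ∧ (∃ b : ℤ, (b:ℚ) = y) := by
  have hI : IsIntegral ℤ Complex.I := by
    apply IsIntegral.of_pow (n := 2) (by norm_num)
    rw [Complex.I_sq]; exact isIntegral_one.neg
  have hconj : ∀ {a b : ℚ}, IsIntegral ℤ ((a:ℂ) + (b:ℂ) * Complex.I) →
      IsIntegral ℤ ((a:ℂ) - (b:ℂ) * Complex.I) := by
    intro a b hab
    have := hab.map (starRingEnd ℂ).toIntAlgHom
    refine int_congr this ?_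
    simp [sub_eq_add_neg]
  have h1 : IsIntegral ℤ (((2 * x : ℚ) : ℂ)) :=
    int_congr (h.add (hconj h)) (by push_cast; ring)
  have h2 : IsIntegral ℤ (((-y : ℚ) : ℂ) + ((x:ℚ):ℂ) * Complex.I) :=
    int_congr (h.mul hI) (by push_cast; linear_combination (y:ℂ) * Complex.I_sq)
  have h3 : IsIntegral ℤ (((2 * y : ℚ) : ℂ)) :=
    int_congr (h2.add (hconj h2)).neg (by push_cast; ring)
  have h4 : IsIntegral ℤ (((x^2 + y^2 : ℚ) : ℂ)) :=
    int_congr (h.mul (hconj h)) (by push_cast; linear_combination (-(y:ℂ)^2) * Complex.I_sq)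
  obtain ⟨a, ha⟩ := rat_int h1
  obtain ⟨b, hb⟩ := rat_int h3
  obtain ⟨k, hk⟩ := rat_int h4
  have h5 : a ^ 2 + b ^ 2 = 4 * k := by
    have : (a:ℚ) ^ 2 + b ^ 2 = 4 * k := by rw [ha, hb, hk]; ring
    exact_mod_cast this
  have h6 : ∀ a b : ZMod 4, a ^ 2 + b ^ 2 = 0 → 2 * a = 0 ∧ 2 * b = 0 := by decide
  have h7 : ((a:ZMod 4)) ^ 2 + (b : ZMod 4) ^ 2 = 0 := by
    have := congrArg (fun z : ℤ => (z : ZMod 4)) h5
    push_cast at this
    rw [this]
    have h4 : (4 : ZMod 4) = 0 := by decide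
    rw [h4, zero_mul]
  obtain ⟨h8, h9⟩ := h6 _ _ h7
  have conv : ∀ z : ℤ, 2 * (z : ZMod 4) = 0 → ∃ w, z = 2 * w := by
    intro z hz
    have : ((2 * z : ℤ) : ZMod 4) = 0 := by push_cast; exact hz
    rw [ZMod.intCast_zmod_eq_zero_iff_dvd] at this
    obtain ⟨w, hw⟩ := this
    exact ⟨w, by push_cast at hw; omega⟩
  obtain ⟨a', ha'⟩ := conv a h8
  obtain ⟨b', hb'⟩ := conv b h9
  constructor
  · refine ⟨a', ?_⟩
    have : (a:ℚ) = 2 * a' := by exact_mod_cast ha'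
    linarith
  · refine ⟨b', ?_⟩
    have : (b:ℚ) = 2 * b' := by exact_mod_cast hb'
    linarith

lemma zmod4_lemma : ∀ x y u w : ZMod 4, x ^ 2 - y ^ 2 - 2 * u * w = 0 →
    2 * x * y - w ^ 2 + u ^ 2 = 0 → 2 * x = 0 ∧ 2 * y = 0 ∧ 2 * u = 0 ∧ 2 * w = 0 := by decide

/-- integers of `ℚ(i, √2)` -/
lemma z8 {U W U' W' : ℚ} {r : ℂ} (hr : r ^ 2 = 2)
    (hu : IsIntegral ℤ (((U:ℂ) + (W:ℂ) * Complex.I) + r * ((U':ℂ) + (W':ℂ) * Complex.I)))
    (hv : IsIntegral ℤ (((U:ℂ) + (W:ℂ) * Complex.I) - r * ((U':ℂ) + (W':ℂ) * Complex.I))) :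
    (∃ a : ℤ, (a:ℚ) = U) ∧ (∃ a : ℤ, (a:ℚ) = W) ∧ (∃ a : ℤ, (a:ℚ) = U' + W') := by
  have hrI : IsIntegral ℤ r := by
    apply IsIntegral.of_pow (n := 2) (by norm_num)
    rw [hr]; exact int_integral 2
  have hI2 := Complex.I_sq
  obtain ⟨⟨x, hx⟩, ⟨y, hy⟩⟩ := gauss_int (x := 2 * U) (y := 2 * W)
    (int_congr (hu.add hv) (by push_cast; ring))
  obtain ⟨⟨m, hm⟩, ⟨n, hn⟩⟩ := gauss_int (x := 4 * U') (y := 4 * W')
    (int_congr (hrI.mul (hu.sub hv)) (by
      push_cast; linear_combination (2 * ((U':ℂ) + (W':ℂ) * Complex.I)) * hr))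
  obtain ⟨⟨k1, hk1⟩, -⟩ := gauss_int (x := 8 * (U' ^ 2 - W' ^ 2)) (y := 16 * U' * W')
    (int_congr ((hu.sub hv).pow 2) (by
      push_cast
      linear_combination (4 * ((U':ℂ) + (W':ℂ) * Complex.I) ^ 2) * hr
        + 8 * (W':ℂ) ^ 2 * hI2))
  obtain ⟨⟨k2, hk2⟩, ⟨k3, hk3⟩⟩ := gauss_int (x := U ^ 2 - W ^ 2 - 2 * (U' ^ 2 - W' ^ 2))
    (y := 2 * U * W - 4 * U' * W')
    (int_congr (hu.mul hv) (by
      push_cast
      linear_combination (-((U':ℂ) + (W':ℂ) * Complex.I) ^ 2) * hr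
        + ((W:ℂ) ^ 2 - 2 * (W':ℂ)^2) * hI2))
  -- parity of m, n
  have h1 : m ^ 2 - n ^ 2 = 2 * k1 := by
    have : (m:ℚ) ^ 2 - n ^ 2 = 2 * k1 := by rw [hm, hn, hk1]; ring
    exact_mod_cast this
  have h2 : ∃ t, m = n + 2 * t := by
    have h3 : Even (m ^ 2 - n ^ 2) := ⟨k1, by rw [h1]; ring⟩
    have h4 : Even (m - n) := by
      rw [Int.even_sub] at h3 ⊢
      simpa [Int.even_pow] using h3
    obtain ⟨t, ht⟩ := h4
    exact ⟨t, by omega⟩
  obtain ⟨t, ht⟩ := h2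
  have htq : (m:ℚ) = n + 2 * t := by exact_mod_cast ht
  set w : ℤ := n + t with hw
  have hwq : (w:ℚ) = n + t := by rw [hw]; push_cast; rfl
  -- 2 (U' - W') = t,  2 (U' + W') = w
  have e1 : (t:ℚ) = 2 * (U' - W') := by linarith
  have e2 : (w:ℚ) = 2 * (U' + W') := by linarith
  have e3 : x ^ 2 - y ^ 2 - 2 * t * w = 4 * k2 := by
    have : (x:ℚ) ^ 2 - y ^ 2 - 2 * t * w = 4 * k2 := by
      rw [hx, hy, hk2, e1, e2]; ring
    exact_mod_cast this
  have e4 : 2 * x * y - w ^ 2 + t ^ 2 = 4 * k3 := by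
    have : 2 * (x:ℚ) * y - w ^ 2 + t ^ 2 = 4 * k3 := by
      rw [hx, hy, hk3, e1, e2]; ring
    exact_mod_cast this
  have h4z : (4 : ZMod 4) = 0 := by decide
  have f3 : (x:ZMod 4) ^ 2 - y ^ 2 - 2 * t * w = 0 := by
    have := congrArg (fun z : ℤ => (z : ZMod 4)) e3
    push_cast at this
    rw [h4z, zero_mul] at this
    exact this
  have f4 : 2 * (x:ZMod 4) * y - w ^ 2 + t ^ 2 = 0 := by
    have := congrArg (fun z : ℤ => (z : ZMod 4)) e4
    push_cast at this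
    rw [h4z, zero_mul] at this
    exact this
  obtain ⟨g1, g2, -, g4⟩ := zmod4_lemma _ _ _ _ f3 f4
  have conv : ∀ z : ℤ, 2 * (z : ZMod 4) = 0 → ∃ w, z = 2 * w := by
    intro z hz
    have : ((2 * z : ℤ) : ZMod 4) = 0 := by push_cast; exact hz
    rw [ZMod.intCast_zmod_eq_zero_iff_dvd] at this
    obtain ⟨w, hw⟩ := this
    exact ⟨w, by push_cast at hw; omega⟩
  obtain ⟨x', hx'⟩ := conv x g1
  obtain ⟨y', hy'⟩ := conv y g2
  obtain ⟨w', hw'⟩ := conv w (by exact_mod_cast g4)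
  refine ⟨⟨x', ?_⟩, ⟨y', ?_⟩, ⟨w', ?_⟩⟩
  · have : (x:ℚ) = 2 * x' := by exact_mod_cast hx'
    linarith
  · have : (y:ℚ) = 2 * y' := by exact_mod_cast hy'
    linarith
  · have : (w:ℚ) = 2 * w' := by exact_mod_cast hw'
    linarith

/-- substitute for `√p` modulo 2 -/
noncomputable def kap (p : ℕ) : ℂ := if p % 4 = 3 then -Complex.I else 1

noncomputable def gh (Q S : Finset ℕ) (p : ℕ) : ℂ :=
  (sg S p : ℂ) * (if p ∈ Q then kap p else ((√(p:ℝ) : ℝ) : ℂ))

lemma cj_cast (P : Finset ℕ) (c : Finset ℕ → ℚ) (S : Finset ℕ) :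
    ((cj P c S : ℝ) : ℂ) = ev (gh ∅ S) P c := by
  unfold cj ev gh
  push_cast
  simp

def tog (S : Finset ℕ) (q : ℕ) : Finset ℕ := if q ∈ S then S.erase q else insert q S

lemma sg_tog_self (S : Finset ℕ) (q : ℕ) : sg (tog S q) q = - sg S q := by
  unfold tog
  by_cases h : q ∈ S
  · rw [if_pos h, sg_erase]; simp [sg, h]
  · rw [if_neg h, sg_insert]; simp [sg, h]

lemma sg_tog_ne (S : Finset ℕ) {q p : ℕ} (h : p ≠ q) : sg (tog S q) p = sg S p := by
  unfold tog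
  by_cases h1 : q ∈ S
  · rw [if_pos h1]; simp [sg, h]
  · rw [if_neg h1]; simp [sg, h]

lemma kap_sq {p : ℕ} (hp : Odd p) : ∃ η e : ℤ, kap p ^ 2 = η ∧ (p:ℤ) - η = 4 * e := by
  unfold kap
  by_cases h : p % 4 = 3
  · rw [if_pos h]
    refine ⟨-1, (p / 4 : ℕ) + 1, ?_, ?_⟩
    · rw [neg_sq, Complex.I_sq]; simp
    · omega
  · rw [if_neg h]
    obtain ⟨k, hk⟩ := hp
    refine ⟨1, (p / 4 : ℕ), ?_, ?_⟩
    · simp
    · omega

lemma gh_integral (Q S : Finset ℕ) (p : ℕ) : IsIntegral ℤ (gh Q S p) := by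
  unfold gh
  apply IsIntegral.mul
  · unfold sg; split_ifs
    · push_cast; exact isIntegral_one.neg
    · push_cast; exact isIntegral_one
  · split_ifs
    · unfold kap
      split_ifs
      · apply IsIntegral.neg
        apply IsIntegral.of_pow (n := 2) (by norm_num)
        rw [Complex.I_sq]; exact isIntegral_one.neg
      · exact isIntegral_one
    · apply IsIntegral.of_pow (n := 2) (by norm_num)
      rw [← Complex.ofReal_pow, Real.sq_sqrt (Nat.cast_nonneg p)]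
      push_cast
      exact int_integral (p:ℤ)

lemma hybrid {P : Finset ℕ} {c : Finset ℕ → ℚ} {m : ℂ} {k : ℕ}
    (h0 : ∀ S, IsIntegral ℤ (m * ev (gh ∅ S) P c))
    (hk : ∀ Q S, IsIntegral ℤ (2 ^ k * (m * ev (gh Q S) P c))) (Q : Finset ℕ) :
    Q ⊆ P → (∀ q ∈ Q, Odd q) → ∀ S, IsIntegral ℤ (m * ev (gh Q S) P c) := by
  induction Q using Finset.induction_on with
  | empty => intro _ _ S; exact h0 S
  | insert q Q hq ih =>
    intro hQ hodd S
    have ih' := ih (fun x hx => hQ (Finset.mem_insert_of_mem hx))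
      (fun x hx => hodd x (Finset.mem_insert_of_mem hx))
    have hqP : q ∈ P := hQ (Finset.mem_insert_self _ _)
    set P' := P.erase q with hP'
    have hqP' : q ∉ P' := Finset.notMem_erase q P
    have hPe : P = insert q P' := (Finset.insert_erase hqP).symm
    obtain ⟨η, e, hη, he⟩ := kap_sq (hodd q (Finset.mem_insert_self _ _))
    set X := m * ev (gh Q S) P' c with hX
    set Y := m * (sg S q : ℂ) * ev (gh Q S) P' (fun A => c (insert q A)) with hY
    have hc1 : ∀ d : Finset ℕ → ℚ, ev (gh (insert q Q) S) P' d = ev (gh Q S) P' d := by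
      intro d
      apply ev_congr_g
      intro p hp
      have hpq : p ≠ q := fun h => hqP' (h ▸ hp)
      simp [gh, hpq]
    have hc2 : ∀ d : Finset ℕ → ℚ, ev (gh Q (tog S q)) P' d = ev (gh Q S) P' d := by
      intro d
      apply ev_congr_g
      intro p hp
      have hpq : p ≠ q := fun h => hqP' (h ▸ hp)
      simp only [gh, sg_tog_ne S hpq]
    have e1 : m * ev (gh (insert q Q) S) P c = X + kap q * Y := by
      rw [hPe, ev_insert _ hqP', hc1, hc1, hX, hY]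
      have : gh (insert q Q) S q = (sg S q : ℂ) * kap q := by simp [gh]
      rw [this]; ring
    have e2 : m * ev (gh Q S) P c = X + ((√(q:ℝ) : ℝ) : ℂ) * Y := by
      rw [hPe, ev_insert _ hqP', hX, hY]
      have : gh Q S q = (sg S q : ℂ) * ((√(q:ℝ) : ℝ) : ℂ) := by simp [gh, hq]
      rw [this]; ring
    have e3 : m * ev (gh Q (tog S q)) P c = X - ((√(q:ℝ) : ℝ) : ℂ) * Y := by
      rw [hPe, ev_insert _ hqP', hc2, hc2, hX, hY]
      have : gh Q (tog S q) q = -(sg S q : ℂ) * ((√(q:ℝ) : ℝ) : ℂ) := by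
        simp [gh, hq, sg_tog_self]
      rw [this]; ring
    rw [e1]
    apply step_integral (r := ((√(q:ℝ) : ℝ) : ℂ)) (q := (q:ℤ)) (k := k) _ hη he
    · have := hodd q (Finset.mem_insert_self _ _)
      exact_mod_cast this
    · rw [← e2]; exact ih' S
    · rw [← e3]; exact ih' (tog S q)
    · rw [← e1]; exact hk _ _
    · rw [← Complex.ofReal_pow, Real.sq_sqrt (Nat.cast_nonneg q)]; push_cast; rfl

/-- number of primes `≡ 3 mod 4`, mod 4 -/
def n3 (A : Finset ℕ) : ℕ := (A.filter (fun p => p % 4 = 3)).card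

def reA (A : Finset ℕ) : ℤ := if n3 A % 4 = 0 then 1 else if n3 A % 4 = 2 then -1 else 0
def imA (A : Finset ℕ) : ℤ := if n3 A % 4 = 1 then -1 else if n3 A % 4 = 3 then 1 else 0

def sA (A : Finset ℕ) : ℤ := reA A + imA A

lemma sA_sq (A : Finset ℕ) : sA A ^ 2 = 1 := by
  unfold sA reA imA
  have : n3 A % 4 < 4 := Nat.mod_lt _ (by norm_num)
  interval_cases (n3 A % 4) <;> simp

lemma prod_kap (A : Finset ℕ) : ∏ p ∈ A, kap p = (reA A : ℂ) + (imA A : ℂ) * Complex.I := by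
  have h1 : ∏ p ∈ A, kap p = (-Complex.I) ^ n3 A := by
    unfold kap n3
    rw [Finset.prod_ite]
    simp
  rw [h1]
  have h2 : (-Complex.I) ^ n3 A = (-Complex.I) ^ (n3 A % 4) := by
    conv_lhs => rw [← Nat.div_add_mod (n3 A) 4]
    rw [pow_add, pow_mul]
    have : (-Complex.I) ^ 4 = 1 := by
      rw [show (4:ℕ) = 2 * 2 by norm_num, pow_mul, neg_sq, Complex.I_sq]; norm_num
    rw [this, one_pow, one_mul]
  rw [h2]
  unfold reA imA
  have : n3 A % 4 < 4 := Nat.mod_lt _ (by norm_num)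
  have hI := Complex.I_sq
  interval_cases (n3 A % 4)
  · simp
  · simp
  · simp
  · simp
    rw [show (-Complex.I) ^ 3 = - (Complex.I ^ 2 * Complex.I) by ring, hI]; ring

/-- character -/
def chi (S A : Finset ℕ) : ℤ := ∏ p ∈ A, (if p ∈ S then -1 else 1)

lemma prod_sg (S A : Finset ℕ) : ∏ p ∈ A, sg S p = ((chi S A : ℤ) : ℝ) := by
  unfold sg chi
  push_cast
  rfl

/-- the integer-valued Walsh function -/
def hW (P : Finset ℕ) (c : Finset ℕ → ℚ) (S : Finset ℕ) : ℚ :=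
  ∑ A ∈ P.powerset, c A * ((sA A : ℚ) * (chi S A : ℚ))

lemma ev_kap (P : Finset ℕ) (c : Finset ℕ → ℚ) (S : Finset ℕ) :
    ev (fun p => (sg S p : ℂ) * kap p) P c
      = ((∑ A ∈ P.powerset, c A * ((reA A : ℚ) * (chi S A : ℚ)) : ℚ) : ℂ)
        + ((∑ A ∈ P.powerset, c A * ((imA A : ℚ) * (chi S A : ℚ)) : ℚ) : ℂ) * Complex.I := by
  unfold ev
  push_cast
  rw [Finset.sum_mul, ← Finset.sum_add_distrib]
  apply Finset.sum_congr rfl
  intro A _
  rw [Finset.prod_mul_distrib, prod_kap]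
  have : ∏ p ∈ A, ((sg S p : ℝ) : ℂ) = ((chi S A : ℤ) : ℂ) := by
    rw [← Complex.ofReal_prod, prod_sg]; push_cast; rfl
  rw [this]; ring

lemma h_int_aux {P : Finset ℕ} {c : Finset ℕ → ℚ} (S : Finset ℕ) :
    ev (gh P S) P c = ev (fun p => (sg S p : ℂ) * kap p) P c := by
  apply ev_congr_g
  intro p hp
  simp [gh, hp]

/-- `h` is integer valued on integral elements -/
theorem h_int {P : Finset ℕ} (h2P : 2 ∉ P) (hP : ∀ p ∈ P, p.Prime) {c : Finset ℕ → ℚ}
    (hi : ∀ S, IsIntegral ℤ (cj (insert 2 P) c S)) (S : Finset ℕ) :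
    ∃ n : ℤ, (n:ℚ) = hW P c S := by
  have hP2 : ∀ p ∈ insert 2 P, p.Prime := by
    intro p hp
    rw [Finset.mem_insert] at hp
    rcases hp with rfl | hp
    · exact Nat.prime_two
    · exact hP p hp
  have hden := denom' hP2 hi
  have h0 : ∀ S, IsIntegral ℤ ((1:ℂ) * ev (gh ∅ S) (insert 2 P) c) := by
    intro S
    rw [one_mul, ← cj_cast]
    exact (hi S).algebraMap
  have hk : ∀ Q S, IsIntegral ℤ (2 ^ (insert 2 P).card * ((1:ℂ) * ev (gh Q S) (insert 2 P) c)) := by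
    intro Q S
    rw [one_mul]
    exact ev_integral hden (fun p _ => gh_integral Q S p)
  have hodd : ∀ q ∈ P, Odd q := by
    intro q hq
    exact (hP q hq).odd_of_ne_two (fun h => h2P (h ▸ hq))
  have main := hybrid h0 hk P (Finset.subset_insert _ _) hodd
  have hr : ((√(2:ℝ) : ℝ) : ℂ) ^ 2 = 2 := by
    rw [← Complex.ofReal_pow, Real.sq_sqrt (by norm_num)]; norm_num
  have hu := main (S.erase 2)
  have hv := main (insert 2 S)
  have hS1 : ∀ d : Finset ℕ → ℚ, ev (gh P (S.erase 2)) P d = ev (gh P S) P d := by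
    intro d
    apply ev_congr_g
    intro p hp
    have hpq : p ≠ 2 := fun h => h2P (h ▸ hp)
    simp [gh, sg, hpq]
  have hS2 : ∀ d : Finset ℕ → ℚ, ev (gh P (insert 2 S)) P d = ev (gh P S) P d := by
    intro d
    apply ev_congr_g
    intro p hp
    have hpq : p ≠ 2 := fun h => h2P (h ▸ hp)
    simp [gh, sg, hpq]
  have g1 : gh P (S.erase 2) 2 = ((√(2:ℝ) : ℝ) : ℂ) := by simp [gh, h2P, sg]
  have g2 : gh P (insert 2 S) 2 = -((√(2:ℝ) : ℝ) : ℂ) := by simp [gh, h2P, sg]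
  rw [one_mul, ev_insert _ h2P, hS1, hS1, h_int_aux, h_int_aux, ev_kap, ev_kap, g1] at hu
  rw [one_mul, ev_insert _ h2P, hS2, hS2, h_int_aux, h_int_aux, ev_kap, ev_kap, g2] at hv
  obtain ⟨⟨a, ha⟩, ⟨b, hb⟩, -⟩ := z8 hr hu (int_congr hv (by ring))
  refine ⟨a + b, ?_⟩
  push_cast
  rw [ha, hb]
  unfold hW sA
  rw [← Finset.sum_add_distrib]
  apply Finset.sum_congr rfl
  intro A _
  push_cast; ring

/-- `h` is even on integral elements whose square is divisible by 2 -/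
theorem h_even {P : Finset ℕ} (h2P : 2 ∉ P) (hP : ∀ p ∈ P, p.Prime) {c : Finset ℕ → ℚ}
    (hi : ∀ S, IsIntegral ℤ (cj (insert 2 P) c S))
    (hi2 : ∀ S, IsIntegral ℤ ((cj (insert 2 P) c S) ^ 2 / 2)) (S : Finset ℕ) :
    ∃ n : ℤ, 2 * (n:ℚ) = hW P c S := by
  have hP2 : ∀ p ∈ insert 2 P, p.Prime := by
    intro p hp
    rw [Finset.mem_insert] at hp
    rcases hp with rfl | hp
    · exact Nat.prime_two
    · exact hP p hp
  have hr : ((√(2:ℝ) : ℝ) : ℂ) ^ 2 = 2 := by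
    rw [← Complex.ofReal_pow, Real.sq_sqrt (by norm_num)]; norm_num
  set r : ℂ := ((√(2:ℝ) : ℝ) : ℂ) with hrdef
  have hrI : IsIntegral ℤ r := by
    apply IsIntegral.of_pow (n := 2) (by norm_num)
    rw [hr]; exact int_integral 2
  have hden := denom' hP2 hi
  have h0 : ∀ S, IsIntegral ℤ ((r / 2) * ev (gh ∅ S) (insert 2 P) c) := by
    intro S
    rw [← cj_cast]
    apply IsIntegral.of_pow (n := 2) (by norm_num)
    have := (hi2 S).algebraMap (B := ℂ)
    refine int_congr this ?_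
    simp only [Complex.coe_algebraMap]
    push_cast
    linear_combination (-((cj (insert 2 P) c S : ℝ) : ℂ) ^ 2 / 4) * hr
  have hk : ∀ Q S, IsIntegral ℤ (2 ^ ((insert 2 P).card + 1)
      * ((r / 2) * ev (gh Q S) (insert 2 P) c)) := by
    intro Q S
    have := (ev_integral hden (fun p _ => gh_integral Q S p)).mul hrI
    refine int_congr this ?_
    rw [pow_succ]; ring
  have hodd : ∀ q ∈ P, Odd q := by
    intro q hq
    exact (hP q hq).odd_of_ne_two (fun h => h2P (h ▸ hq))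
  have main := hybrid h0 hk P (Finset.subset_insert _ _) hodd
  have hu := main (S.erase 2)
  have hv := main (insert 2 S)
  have hS1 : ∀ d : Finset ℕ → ℚ, ev (gh P (S.erase 2)) P d = ev (gh P S) P d := by
    intro d
    apply ev_congr_g
    intro p hp
    have hpq : p ≠ 2 := fun h => h2P (h ▸ hp)
    simp [gh, sg, hpq]
  have hS2 : ∀ d : Finset ℕ → ℚ, ev (gh P (insert 2 S)) P d = ev (gh P S) P d := by
    intro d
    apply ev_congr_g
    intro p hp
    have hpq : p ≠ 2 := fun h => h2P (h ▸ hp)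
    simp [gh, sg, hpq]
  have g1 : gh P (S.erase 2) 2 = r := by simp [gh, h2P, sg, hrdef]
  have g2 : gh P (insert 2 S) 2 = -r := by simp [gh, h2P, sg, hrdef]
  rw [ev_insert _ h2P, hS1, hS1, h_int_aux, h_int_aux, ev_kap, ev_kap, g1] at hu
  rw [ev_insert _ h2P, hS2, hS2, h_int_aux, h_int_aux, ev_kap, ev_kap, g2] at hv
  set U : ℚ := ∑ A ∈ P.powerset, c A * ((reA A : ℚ) * (chi S A : ℚ)) with hU
  set W : ℚ := ∑ A ∈ P.powerset, c A * ((imA A : ℚ) * (chi S A : ℚ)) with hW'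
  set U' : ℚ := ∑ A ∈ P.powerset, (fun A => c (insert 2 A)) A * ((reA A : ℚ) * (chi S A : ℚ)) with hU'
  set W'' : ℚ := ∑ A ∈ P.powerset, (fun A => c (insert 2 A)) A * ((imA A : ℚ) * (chi S A : ℚ)) with hW''
  obtain ⟨-, -, ⟨a, ha⟩⟩ := z8 (U := U') (W := W'') (U' := U / 2) (W' := W / 2) hr
    (int_congr hu (by
      push_cast
      linear_combination (((U':ℂ) + (W'':ℂ) * Complex.I) / 2) * hr))
    (int_congr hv.neg (by
      push_cast
      linear_combination (((U':ℂ) + (W'':ℂ) * Complex.I) / 2) * hr))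
  refine ⟨a, ?_⟩
  rw [ha]
  have : hW P c S = U + W := by
    rw [hU, hW']
    unfold hW sA
    rw [← Finset.sum_add_distrib]
    apply Finset.sum_congr rfl
    intro A _
    push_cast; ring
  rw [this]; ring

end Pool.Agent.H421MQ
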