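import Mathlib
import Pool.Agent.H421MQ.Norm

open Finset

namespace Pool.Agent.H421MQ

/-- Walsh function with rational coefficients -/
noncomputable def kW (P : Finset ℕ) (d : Finset ℕ → ℚ) (S : Finset ℕ) : ℝ :=
  ev (fun p => sg S p) P d

lemma kW_parseval (P : Finset ℕ) (d : Finset ℕ → ℚ) :
    ∑ S ∈ P.powerset, (kW P d S) ^ 2 = 2 ^ P.card * ∑ A ∈ P.powerset, ((d A : ℚ) : ℝ) ^ 2 := by
  have := parseval (fun _ => (1:ℝ)) P d
  unfold kW
  simp only [mul_one] at this
  rw [this]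
  congr 1
  unfold ev
  apply Finset.sum_congr rfl
  intro A _
  simp

lemma sum_powerset_union {R : Type*} [AddCommMonoid R] (P0 : Finset ℕ) : ∀ (P1 : Finset ℕ),
    Disjoint P0 P1 → ∀ F : Finset ℕ → R,
    ∑ A ∈ (P0 ∪ P1).powerset, F A = ∑ B ∈ P1.powerset, ∑ A ∈ P0.powerset, F (A ∪ B) := by
  induction P0 using Finset.induction_on with
  | empty => intro P1 _ F; simp
  | insert p P0 hp ih =>
    intro P1 hd F
    rw [Finset.disjoint_insert_left] at hd
    have hp' : p ∉ P0 ∪ P1 := by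
      rw [Finset.mem_union, not_or]; exact ⟨hp, hd.1⟩
    rw [Finset.insert_union, Finset.sum_powerset_insert hp', ih P1 hd.2, ih P1 hd.2,
      ← Finset.sum_add_distrib]
    apply Finset.sum_congr rfl
    intro B _
    rw [Finset.sum_powerset_insert hp]
    congr 1
    apply Finset.sum_congr rfl
    intro A _
    rw [Finset.insert_union]

lemma kW_fiber {P0 P1 : Finset ℕ} (hd : Disjoint P0 P1) (d : Finset ℕ → ℚ) {S0 S1 : Finset ℕ}
    (h0 : S0 ⊆ P0) (h1 : S1 ⊆ P1) :
    kW (P0 ∪ P1) d (S0 ∪ S1)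
      = kW P1 (fun B => ∑ A ∈ P0.powerset, d (A ∪ B) * ∏ p ∈ A, (if p ∈ S0 then (-1:ℚ) else 1)) S1 := by
  unfold kW ev
  rw [sum_powerset_union P0 P1 hd]
  apply Finset.sum_congr rfl
  intro B hB
  push_cast
  rw [Finset.sum_mul]
  apply Finset.sum_congr rfl
  intro A hA
  have hAB : Disjoint A B := Finset.disjoint_of_subset_left (Finset.mem_powerset.mp hA)
    (Finset.disjoint_of_subset_right (Finset.mem_powerset.mp hB) hd)
  rw [Finset.prod_union hAB, mul_assoc]
  congr 2
  · apply Finset.prod_congr rfl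
    intro p hp
    have h2 : p ∈ P0 := Finset.mem_powerset.mp hA hp
    have h3 : p ∉ S1 := fun h => (Finset.disjoint_left.mp hd h2) (h1 h)
    unfold sg
    simp only [Finset.mem_union, h3, or_false]
    split_ifs <;> norm_num
  · apply Finset.prod_congr rfl
    intro p hp
    have h2 : p ∈ P1 := Finset.mem_powerset.mp hB hp
    have h3 : p ∉ S0 := fun h => (Finset.disjoint_left.mp hd (h0 h)) h2
    unfold sg
    simp [h3]

lemma kW_near {P0 P1 : Finset ℕ} (hd : Disjoint P0 P1) (d : Finset ℕ → ℚ) {S0 : Finset ℕ}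
    (h0 : S0 ⊆ P0)
    (huniq : ∀ A ⊆ P0, ∀ A' ⊆ P0, ∀ B ⊆ P1, d (A ∪ B) ≠ 0 → d (A' ∪ B) ≠ 0 → A = A') :
    ∑ S1 ∈ P1.powerset, (kW (P0 ∪ P1) d (S0 ∪ S1)) ^ 2
      = 2 ^ P1.card * ∑ A ∈ (P0 ∪ P1).powerset, ((d A : ℚ) : ℝ) ^ 2 := by
  rw [Finset.sum_congr rfl (fun S1 hS1 => by rw [kW_fiber hd d h0 (Finset.mem_powerset.mp hS1)]),
    kW_parseval, sum_powerset_union P0 P1 hd]
  congr 1
  apply Finset.sum_congr rfl
  intro B hB
  have hB' := Finset.mem_powerset.mp hB
  by_cases hex : ∃ A ∈ P0.powerset, d (A ∪ B) ≠ 0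
  · obtain ⟨A, hA, hdA⟩ := hex
    have hzero : ∀ A' ∈ P0.powerset, A' ≠ A → d (A' ∪ B) = 0 := by
      intro A' hA' hne
      by_contra h
      exact hne (huniq A' (Finset.mem_powerset.mp hA') A (Finset.mem_powerset.mp hA) B hB' h hdA)
    rw [Finset.sum_eq_single A (fun A' hA' hne => by rw [hzero A' hA' hne]; ring)
      (fun h => absurd hA h), Finset.sum_eq_single A (fun A' hA' hne => by
        rw [hzero A' hA' hne]; simp) (fun h => absurd hA h)]
    push_cast
    rw [mul_pow]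
    have : (∏ p ∈ A, (if p ∈ S0 then (-1:ℝ) else 1)) ^ 2 = 1 := by
      rw [← Finset.prod_pow]
      apply Finset.prod_eq_one
      intro p _
      split_ifs <;> norm_num
    simp only [apply_ite (fun x : ℚ => (x:ℝ))]
    push_cast
    rw [this, mul_one]
  · push Not at hex
    rw [Finset.sum_eq_zero (fun A hA => by rw [hex A hA]; ring),
      Finset.sum_eq_zero (fun A hA => by rw [hex A hA]; simp)]
    simp

/-- The key combinatorial lemma. -/
theorem walsh_main {P0 P1 : Finset ℕ} (hd : Disjoint P0 P1) {n : ℕ}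
    (d : Fin n → Finset ℕ → ℚ) (k : Fin n → Finset ℕ → ℤ) (w : Finset ℕ → ℝ) (v C δ : ℝ)
    (hk : ∀ j, ∀ S ⊆ P0 ∪ P1, (k j S : ℝ) = kW (P0 ∪ P1) (d j) S)
    (hpar : ∀ j, ∀ S ⊆ P0 ∪ P1, Even (k j S - k j (S ∩ P0)))
    (hodd : ∀ S ⊆ P0 ∪ P1, Odd (∑ j, k j S))
    (hw : ∀ j, ∀ A ⊆ P0 ∪ P1, d j A ≠ 0 → v ≤ w A)
    (hnear : ∀ A ⊆ P0, ∀ A' ⊆ P0, ∀ B ⊆ P1, v ≤ w (A ∪ B) → v ≤ w (A' ∪ B) →
      w (A ∪ B) < (1 + δ) * v → w (A' ∪ B) < (1 + δ) * v → A = A')
    (hT : ∑ j, ∑ A ∈ (P0 ∪ P1).powerset, w A * ((d j A : ℚ) : ℝ) ^ 2 ≤ v + C)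
    (hv0 : 0 < v) (hδ : 0 < δ) (hC : 0 ≤ C) (hv1 : 24 * 2 ^ P0.card * C ≤ δ * v) (hv2 : 4 * C < v) :
    ∃ j, 1 ≤ ∑ A ∈ (P0 ∪ P1).powerset, ((d j A : ℚ) : ℝ) ^ 2 := by
  classical
  set P := P0 ∪ P1 with hP
  set dn : Fin n → Finset ℕ → ℚ := fun j A => if w A < (1 + δ) * v then d j A else 0 with hdn
  set df : Fin n → Finset ℕ → ℚ := fun j A => if w A < (1 + δ) * v then 0 else d j A with hdf
  set N : Fin n → ℝ := fun j => ∑ A ∈ P.powerset, ((d j A : ℚ) : ℝ) ^ 2 with hN
  set F : Fin n → ℝ := fun j => ∑ A ∈ P.powerset, ((df j A : ℚ) : ℝ) ^ 2 with hF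
  have hN0 : ∀ j, 0 ≤ N j := fun j => Finset.sum_nonneg (fun A _ => sq_nonneg _)
  have hF0 : ∀ j, 0 ≤ F j := fun j => Finset.sum_nonneg (fun A _ => sq_nonneg _)
  have hcard : (0:ℝ) < 2 ^ P.card := by positivity
  -- 1. sum of N
  have hN1 : 1 ≤ ∑ j, N j := by
    have h1 : (2:ℝ) ^ P.card ≤ ∑ S ∈ P.powerset, ∑ j, (kW P (d j) S) ^ 2 := by
      have : (2:ℝ) ^ P.card = ∑ S ∈ P.powerset, (1:ℝ) := by
        rw [Finset.sum_const, Finset.card_powerset]; simp
      rw [this]
      apply Finset.sum_le_sum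
      intro S hS
      have hS' := Finset.mem_powerset.mp hS
      have h2 : ∃ j, k j S ≠ 0 := by
        by_contra hcon
        push Not at hcon
        have := hodd S hS'
        rw [Finset.sum_eq_zero (fun j _ => hcon j)] at this
        exact absurd this (by decide)
      obtain ⟨j, hj⟩ := h2
      have h3 : (1:ℝ) ≤ (kW P (d j) S) ^ 2 := by
        rw [← hk j S hS']
        have : 1 ≤ (k j S) ^ 2 := by
          have := sq_pos_of_ne_zero hj
          omega
        exact_mod_cast this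
      exact le_trans h3 (Finset.single_le_sum (f := fun j => (kW P (d j) S) ^ 2)
        (fun i _ => sq_nonneg _) (Finset.mem_univ j))
    rw [Finset.sum_comm] at h1
    simp only [kW_parseval] at h1
    rw [← Finset.mul_sum] at h1
    have h4 : (2:ℝ) ^ P.card * 1 ≤ 2 ^ P.card * ∑ j, N j := by rw [mul_one]; exact h1
    exact le_of_mul_le_mul_left h4 hcard
  -- 2. weights
  have hsum : v * ∑ j, N j + δ * v * ∑ j, F j ≤ v + C := by
    refine le_trans ?_ hT
    rw [Finset.mul_sum, Finset.mul_sum, ← Finset.sum_add_distrib]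
    apply Finset.sum_le_sum
    intro j _
    rw [hN, hF]
    simp only
    rw [Finset.mul_sum, Finset.mul_sum, ← Finset.sum_add_distrib]
    apply Finset.sum_le_sum
    intro A hA
    by_cases h0 : d j A = 0
    · simp only [hdf, h0]; simp
    · have h1 := hw j A (Finset.mem_powerset.mp hA) h0
      have h2 : 0 ≤ ((d j A : ℚ) : ℝ) ^ 2 := sq_nonneg _
      simp only [hdf]
      split_ifs with h3
      · push_cast
        nlinarith
      · push Not at h3
        nlinarith
  have hFj : ∀ j, δ * v * F j ≤ C := by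
    intro j
    have h1 : F j ≤ ∑ j, F j := Finset.single_le_sum (fun i _ => hF0 i) (Finset.mem_univ j)
    have h2 : δ * v * F j ≤ δ * v * ∑ j, F j := mul_le_mul_of_nonneg_left h1 (by positivity)
    nlinarith
  have hNs : ∑ j, N j < 5 / 4 := by
    have h1 : 0 ≤ δ * v * ∑ j, F j := mul_nonneg (by positivity) (Finset.sum_nonneg (fun j _ => hF0 j))
    by_contra hcon
    push Not at hcon
    nlinarith
  -- 3. odd fibres
  have hfib : ∀ j, ∀ S0 ⊆ P0, Odd (k j S0) → 5 / 8 ≤ N j := by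
    intro j S0 hS0 hoddj
    have hS0P : ∀ S1 ⊆ P1, S0 ∪ S1 ⊆ P := fun S1 h1 => Finset.union_subset_union hS0 h1
    have h1 : ∀ S1 ∈ P1.powerset, (1:ℝ) ≤ (kW P (d j) (S0 ∪ S1)) ^ 2 := by
      intro S1 hS1
      have hS1' := Finset.mem_powerset.mp hS1
      rw [← hk j _ (hS0P S1 hS1')]
      have h2 := hpar j (S0 ∪ S1) (hS0P S1 hS1')
      have h3 : (S0 ∪ S1) ∩ P0 = S0 := by
        ext x
        simp only [Finset.mem_inter, Finset.mem_union]
        constructor
        · rintro ⟨h | h, h'⟩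
          · exact h
          · exact absurd (hS1' h) (Finset.disjoint_left.mp hd h')
        · intro h; exact ⟨Or.inl h, hS0 h⟩
      rw [h3] at h2
      have h4 : Odd (k j (S0 ∪ S1)) := by
        have : k j (S0 ∪ S1) = (k j (S0 ∪ S1) - k j S0) + k j S0 := by ring
        rw [this]; exact h2.add_odd hoddj
      have h5 : k j (S0 ∪ S1) ≠ 0 := by
        intro h; rw [h] at h4; exact absurd h4 (by decide)
      have : 1 ≤ (k j (S0 ∪ S1)) ^ 2 := by
        have := sq_pos_of_ne_zero h5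
        omega
      exact_mod_cast this
    have hdec : ∀ S, kW P (d j) S = kW P (dn j) S + kW P (df j) S := by
      intro S
      unfold kW
      rw [← ev_add]
      apply ev_congr
      intro A _
      simp only [hdn, hdf]
      split_ifs <;> simp
    have h2 : (2:ℝ) ^ P1.card ≤ ∑ S1 ∈ P1.powerset, (kW P (d j) (S0 ∪ S1)) ^ 2 := by
      have : (2:ℝ) ^ P1.card = ∑ S ∈ P1.powerset, (1:ℝ) := by
        rw [Finset.sum_const, Finset.card_powerset]; simp
      rw [this]
      exact Finset.sum_le_sum h1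
    have h3 : ∑ S1 ∈ P1.powerset, (kW P (d j) (S0 ∪ S1)) ^ 2
        ≤ 4 / 3 * ∑ S1 ∈ P1.powerset, (kW P (dn j) (S0 ∪ S1)) ^ 2
          + 4 * ∑ S1 ∈ P1.powerset, (kW P (df j) (S0 ∪ S1)) ^ 2 := by
      rw [Finset.mul_sum, Finset.mul_sum, ← Finset.sum_add_distrib]
      apply Finset.sum_le_sum
      intro S1 _
      rw [hdec]
      nlinarith [sq_nonneg (kW P (dn j) (S0 ∪ S1) - 3 * kW P (df j) (S0 ∪ S1))]
    have h4 : ∑ S1 ∈ P1.powerset, (kW P (dn j) (S0 ∪ S1)) ^ 2 ≤ 2 ^ P1.card * N j := by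
      rw [kW_near hd (dn j) hS0]
      · apply mul_le_mul_of_nonneg_left _ (by positivity)
        apply Finset.sum_le_sum
        intro A _
        simp only [hdn]
        split_ifs
        · exact le_refl _
        · push_cast
          have : 0 ≤ ((d j A : ℚ) : ℝ) ^ 2 := sq_nonneg _
          simpa using this
      · intro A hA A' hA' B hB h5 h6
        have g1 : w (A ∪ B) < (1 + δ) * v := by
          by_contra hcon; exact h5 (by simp only [hdn]; rw [if_neg hcon])
        have g2 : w (A' ∪ B) < (1 + δ) * v := by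
          by_contra hcon; exact h6 (by simp only [hdn]; rw [if_neg hcon])
        have g3 : d j (A ∪ B) ≠ 0 := by
          intro hcon; apply h5; simp only [hdn]; rw [if_pos g1, hcon]
        have g4 : d j (A' ∪ B) ≠ 0 := by
          intro hcon; apply h6; simp only [hdn]; rw [if_pos g2, hcon]
        exact hnear A hA A' hA' B hB (hw j _ (Finset.union_subset_union hA hB) g3)
          (hw j _ (Finset.union_subset_union hA' hB) g4) g1 g2
    have h5 : ∑ S1 ∈ P1.powerset, (kW P (df j) (S0 ∪ S1)) ^ 2 ≤ 2 ^ P.card * F j := by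
      rw [hF]
      simp only
      rw [← kW_parseval, hP, sum_powerset_union P0 P1 hd]
      apply Finset.sum_le_sum
      intro S1 _
      exact Finset.single_le_sum (f := fun A => (kW (P0 ∪ P1) (df j) (A ∪ S1)) ^ 2)
        (fun i _ => sq_nonneg _) (Finset.mem_powerset.mpr hS0)
    have hPc : (2:ℝ) ^ P.card = 2 ^ P0.card * 2 ^ P1.card := by
      rw [hP, Finset.card_union_of_disjoint hd, pow_add]
    rw [hPc] at h5
    have hp1 : (0:ℝ) < 2 ^ P1.card := by positivity
    have h6 : (2:ℝ) ^ P1.card * 1 ≤ 2 ^ P1.card * (4 / 3 * N j + 4 * (2 ^ P0.card * F j)) := by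
      nlinarith
    have h7 := le_of_mul_le_mul_left h6 hp1
    -- 2^|P0| F_j ≤ 1/24
    have h8 : 2 ^ P0.card * F j ≤ 1 / 24 := by
      by_cases hC0 : C = 0
      · have := hFj j
        rw [hC0] at this
        have h9 : F j = 0 := by
          have h10 : 0 < δ * v := by positivity
          have h11 := hF0 j
          nlinarith
        rw [h9]; norm_num
      · have hCpos : 0 < C := lt_of_le_of_ne hC (Ne.symm hC0)
        have h9 := hFj j
        have h10 : 24 * 2 ^ P0.card * C * F j ≤ C := le_trans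
          (mul_le_mul_of_nonneg_right hv1 (hF0 j)) h9
        have h11 : C * (24 * (2 ^ P0.card * F j)) ≤ C * 1 := by nlinarith
        have h12 := le_of_mul_le_mul_left h11 hCpos
        linarith
    linarith
  -- 4. the odd index is constant
  have hex : ∀ S0 ⊆ P0, ∃ j, Odd (k j S0) := by
    intro S0 hS0
    by_contra hcon
    push Not at hcon
    have h1 := hodd S0 (hS0.trans Finset.subset_union_left)
    have h2 : Even (∑ j, k j S0) := by
      apply Finset.even_sum
      intro j _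
      exact Int.not_odd_iff_even.mp (hcon j)
    exact (Int.not_odd_iff_even.mpr h2) h1
  obtain ⟨j0, hj0⟩ := hex ∅ (Finset.empty_subset _)
  refine ⟨j0, ?_⟩
  have hall : ∀ S0 ⊆ P0, Odd (k j0 S0) := by
    intro S0 hS0
    obtain ⟨j, hj⟩ := hex S0 hS0
    by_cases hjj : j = j0
    · rw [← hjj]; exact hj
    · exfalso
      have h1 := hfib j S0 hS0 hj
      have h2 := hfib j0 ∅ (Finset.empty_subset _) hj0
      have h3 : N j + N j0 ≤ ∑ i, N i := by
        rw [← Finset.sum_pair hjj]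
        exact Finset.sum_le_sum_of_subset_of_nonneg (Finset.subset_univ _) (fun i _ _ => hN0 i)
      linarith
  have hall' : ∀ S ∈ P.powerset, (1:ℝ) ≤ (kW P (d j0) S) ^ 2 := by
    intro S hS
    have hS' := Finset.mem_powerset.mp hS
    rw [← hk j0 S hS']
    have h2 := hpar j0 S hS'
    have h4 : Odd (k j0 S) := by
      have : k j0 S = (k j0 S - k j0 (S ∩ P0)) + k j0 (S ∩ P0) := by ring
      rw [this]; exact h2.add_odd (hall _ Finset.inter_subset_right)
    have h5 : k j0 S ≠ 0 := by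
      intro h; rw [h] at h4; exact absurd h4 (by decide)
    have : 1 ≤ (k j0 S) ^ 2 := by
      have := sq_pos_of_ne_zero h5
      omega
    exact_mod_cast this
  have h1 : (2:ℝ) ^ P.card ≤ ∑ S ∈ P.powerset, (kW P (d j0) S) ^ 2 := by
    have : (2:ℝ) ^ P.card = ∑ S ∈ P.powerset, (1:ℝ) := by
      rw [Finset.sum_const, Finset.card_powerset]; simp
    rw [this]
    exact Finset.sum_le_sum hall'
  rw [kW_parseval] at h1
  have h2 : (2:ℝ) ^ P.card * 1 ≤ 2 ^ P.card * ∑ A ∈ P.powerset, ((d j0 A : ℚ) : ℝ) ^ 2 := by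
    rw [mul_one]; exact h1
  exact le_of_mul_le_mul_left h2 hcard

end Pool.Agent.H421MQ
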