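import Mathlib
import Pool.Agent.H421MQ.Hybrid
import Pool.Agent.H421MQ.Walsh
import Pool.Agent.H421MQ.Field

open Finset

namespace Pool.Agent.H421MQ

lemma hW_insert {P : Finset ℕ} {q : ℕ} (hq : q ∉ P) (c : Finset ℕ → ℚ) (S : Finset ℕ) :
    hW (insert q P) c S = ∑ A ∈ P.powerset, (c A * ((sA A : ℚ) * (chi S A : ℚ))
      + c (insert q A) * ((sA (insert q A) : ℚ) * (chi S (insert q A) : ℚ))) := by
  unfold hW
  rw [Finset.sum_powerset_insert hq, ← Finset.sum_add_distrib]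

lemma chi_insert_S {q : ℕ} {S A : Finset ℕ} (hA : q ∉ A) : chi (insert q S) A = chi S A := by
  unfold chi
  apply Finset.prod_congr rfl
  intro p hp
  have : p ≠ q := fun h => hA (h ▸ hp)
  simp [this]

lemma chi_insert_A {q : ℕ} {S A : Finset ℕ} (hA : q ∉ A) (hS : q ∉ S) :
    chi S (insert q A) = chi S A := by
  unfold chi
  rw [Finset.prod_insert hA]
  simp [hS]

lemma chi_insert_both {q : ℕ} {S A : Finset ℕ} (hA : q ∉ A) :
    chi (insert q S) (insert q A) = - chi S A := by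
  unfold chi
  rw [Finset.prod_insert hA]
  have := chi_insert_S (S := S) hA
  unfold chi at this
  rw [this]
  simp

lemma hW_diff {P : Finset ℕ} {q : ℕ} (hq : q ∉ P) (c : Finset ℕ → ℚ) {S : Finset ℕ}
    (hS : q ∉ S) :
    hW (insert q P) c S - hW (insert q P) c (insert q S)
      = ∑ A ∈ P.powerset, (2 * c (insert q A) * (sA (insert q A) : ℚ)) * (chi S A : ℚ) := by
  rw [hW_insert hq, hW_insert hq, ← Finset.sum_sub_distrib]
  apply Finset.sum_congr rfl
  intro A hA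
  have hqA : q ∉ A := fun h => hq (Finset.mem_powerset.mp hA h)
  rw [chi_insert_S hqA, chi_insert_A hqA hS, chi_insert_both hqA]
  push_cast; ring

lemma hW_add' {P : Finset ℕ} {q : ℕ} (hq : q ∉ P) (c : Finset ℕ → ℚ) {S : Finset ℕ}
    (hS : q ∉ S) :
    hW (insert q P) c S + hW (insert q P) c (insert q S)
      = ∑ A ∈ P.powerset, (2 * c A * (sA A : ℚ)) * (chi S A : ℚ) := by
  rw [hW_insert hq, hW_insert hq, ← Finset.sum_add_distrib]
  apply Finset.sum_congr rfl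
  intro A hA
  have hqA : q ∉ A := fun h => hq (Finset.mem_powerset.mp hA h)
  rw [chi_insert_S hqA, chi_insert_A hqA hS, chi_insert_both hqA]
  push_cast; ring

lemma kW_eq (P : Finset ℕ) (d : Finset ℕ → ℚ) (S : Finset ℕ) :
    kW P d S = ((∑ A ∈ P.powerset, d A * (chi S A : ℚ) : ℚ) : ℝ) := by
  unfold kW ev
  push_cast
  apply Finset.sum_congr rfl
  intro A _
  rw [prod_sg]

lemma sq_sum_int {ι : Type*} (s : Finset ι) (f : ι → ℝ) (hf : ∀ i ∈ s, IsIntegral ℤ (f i)) :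
    IsIntegral ℤ (∑ i ∈ s, f i) ∧
      ∃ e, IsIntegral ℤ e ∧ (∑ i ∈ s, f i) ^ 2 = ∑ i ∈ s, f i ^ 2 + 2 * e := by
  classical
  induction s using Finset.induction_on with
  | empty => exact ⟨by simpa using isIntegral_zero, 0, isIntegral_zero, by simp⟩
  | insert a s ha ih =>
    obtain ⟨h1, e, he, hee⟩ := ih (fun i hi => hf i (Finset.mem_insert_of_mem hi))
    have h2 := hf a (Finset.mem_insert_self _ _)
    rw [Finset.sum_insert ha, Finset.sum_insert ha]
    refine ⟨h2.add h1, e + f a * ∑ i ∈ s, f i, he.add (h2.mul h1), ?_⟩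
    rw [add_sq, hee]; ring

lemma t_even {ι κ : Type*} [Fintype ι] [Fintype κ] {Y : ι → ℝ} {Z : κ → ℝ} {X : ℝ}
    (hY : ∀ i, IsIntegral ℤ (Y i)) (hZ : ∀ i, IsIntegral ℤ (Z i)) (hX : IsIntegral ℤ X)
    (h : ∑ i, Y i ^ 2 = X ^ 2 + ∑ i, Z i ^ 2) :
    IsIntegral ℤ ((∑ i, Y i - X - ∑ i, Z i) ^ 2 / 2) := by
  obtain ⟨h1, e, he, hee⟩ := sq_sum_int Finset.univ Y (fun i _ => hY i)
  obtain ⟨h1', e', he', hee'⟩ := sq_sum_int Finset.univ Z (fun i _ => hZ i)
  have hZ2 : IsIntegral ℤ (∑ i, Z i ^ 2) := IsIntegral.sum _ (fun i _ => (hZ i).pow 2)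
  have : (∑ i, Y i - X - ∑ i, Z i) ^ 2 / 2 = X ^ 2 + ∑ i, Z i ^ 2 + e + e'
      - X * ∑ i, Y i - (∑ i, Z i) * (∑ i, Y i) + X * ∑ i, Z i := by
    have h3 : (∑ i, Y i - X - ∑ i, Z i) ^ 2 = (∑ i, Y i) ^ 2 + X ^ 2 + (∑ i, Z i) ^ 2
      - 2 * X * ∑ i, Y i - 2 * (∑ i, Z i) * (∑ i, Y i) + 2 * X * ∑ i, Z i := by ring
    rw [h3, hee, hee', h]; ring
  rw [this]
  exact (((((((hX.pow 2).add hZ2).add he).add he').sub (hX.mul h1)).sub (h1'.mul h1)).add
    (hX.mul h1'))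

/-- single family -/
def sing (A : Finset ℕ) (x : ℚ) : Finset ℕ → ℚ := fun B => if B = A then x else 0

lemma ev_sing {R : Type*} [Field R] [CharZero R] (g : ℕ → R) {P A : Finset ℕ} (hA : A ⊆ P) (x : ℚ) :
    ev g P (sing A x) = (x : R) * ∏ p ∈ A, g p := by
  unfold ev sing
  rw [Finset.sum_eq_single A]
  · simp
  · intro B _ hB; simp [hB]
  · intro h; exact absurd (Finset.mem_powerset.mpr hA) h

def cxf (A B : Finset ℕ) : Finset ℕ → ℚ := fun D => sing A (1/2) D + sing B (1/2) D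

lemma T_cxf {P A B : Finset ℕ} (hA : A ⊆ P) (hB : B ⊆ P) (hne : A ≠ B) :
    T P (cxf A B) = ((pr A : ℝ) + pr B) / 4 := by
  unfold T
  have : ev (fun p => (p:ℝ)) P (fun D => (cxf A B D) ^ 2)
      = ev (fun p => (p:ℝ)) P (fun D => sing A (1/4) D + sing B (1/4) D) := by
    apply ev_congr
    intro D _
    unfold cxf sing
    by_cases h1 : D = A
    · have h2 : D ≠ B := fun h => hne (h1 ▸ h)
      simp [h1, hne]; norm_num
    · by_cases h2 : D = B
      · subst h2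
        simp [h1]; norm_num
      · simp [h1, h2]
  rw [this, ev_add, ev_sing _ hA, ev_sing _ hB]
  unfold pr
  push_cast; ring

lemma hW_sing {P A : Finset ℕ} (hA : A ⊆ P) (x : ℚ) (S : Finset ℕ) :
    hW P (sing A x) S = x * ((sA A : ℚ) * (chi S A : ℚ)) := by
  unfold hW sing
  rw [Finset.sum_eq_single A]
  · simp
  · intro B _ hB; simp [hB]
  · intro h; exact absurd (Finset.mem_powerset.mpr hA) h

lemma hW_lin (P : Finset ℕ) {ι κ : Type*} [Fintype ι] [Fintype κ] (a : ι → Finset ℕ → ℚ)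
    (b : Finset ℕ → ℚ) (d : κ → Finset ℕ → ℚ) (S : Finset ℕ) :
    hW P (fun A => ∑ i, a i A - b A - ∑ i, d i A) S
      = ∑ i, hW P (a i) S - hW P b S - ∑ i, hW P (d i) S := by
  unfold hW
  rw [Finset.sum_comm, Finset.sum_comm (s := Finset.univ) (f := fun i A => d i A * _),
    ← Finset.sum_sub_distrib, ← Finset.sum_sub_distrib]
  apply Finset.sum_congr rfl
  intro A _
  rw [← Finset.sum_mul, ← Finset.sum_mul]
  ring

lemma cj_lin (P : Finset ℕ) {ι κ : Type*} [Fintype ι] [Fintype κ] (a : ι → Finset ℕ → ℚ)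
    (b : Finset ℕ → ℚ) (d : κ → Finset ℕ → ℚ) (S : Finset ℕ) :
    cj P (fun A => ∑ i, a i A - b A - ∑ i, d i A) S
      = ∑ i, cj P (a i) S - cj P b S - ∑ i, cj P (d i) S := by
  unfold cj ev
  rw [Finset.sum_comm, Finset.sum_comm (s := Finset.univ) (f := fun i A => ((d i A : ℚ) : ℝ) * _),
    ← Finset.sum_sub_distrib, ← Finset.sum_sub_distrib]
  apply Finset.sum_congr rfl
  intro A _
  rw [← Finset.sum_mul, ← Finset.sum_mul]
  push_cast
  ring

lemma chi_abs (S A : Finset ℕ) : chi S A = 1 ∨ chi S A = -1 := by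
  have : (chi S A) ^ 2 = 1 := by
    unfold chi
    rw [← Finset.prod_pow]
    apply Finset.prod_eq_one
    intro p _
    split_ifs <;> norm_num
  exact mul_self_eq_one_iff.mp (by rw [← sq]; exact this)

end Pool.Agent.H421MQ
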