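import Mathlib
import Pool.Agent.H421MQ.Core

open Finset

namespace Pool.Agent.H421MQ

lemma sum_N_ge_one {P : Finset ℕ} {n : ℕ} (d : Fin n → Finset ℕ → ℚ) (k : Fin n → Finset ℕ → ℤ)
    (hk : ∀ j, ∀ S ⊆ P, (k j S : ℝ) = kW P (d j) S)
    (hodd : ∀ S ⊆ P, Odd (∑ j, k j S)) :
    1 ≤ ∑ j, ∑ A ∈ P.powerset, ((d j A : ℚ) : ℝ) ^ 2 := by
  have hcard : (0:ℝ) < 2 ^ P.card := by positivity
  have h1 : (2:ℝ) ^ P.card ≤ ∑ S ∈ P.powerset, ∑ j, (kW P (d j) S) ^ 2 := by
    have : (2:ℝ) ^ P.card = ∑ S ∈ P.powerset, (1:ℝ) := by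
      rw [Finset.sum_const, Finset.card_powerset]; simp
    rw [this]
    apply Finset.sum_le_sum
    intro S hS
    have hS' := Finset.mem_powerset.mp hS
    have h2 : ∃ j, k j S ≠ 0 := by
      by_contra hcon
      push Not at hcon
      have := hodd S hS'
      rw [Finset.sum_eq_zero (fun j _ => hcon j)] at this
      exact absurd this (by decide)
    obtain ⟨j, hj⟩ := h2
    have h3 : (1:ℝ) ≤ (kW P (d j) S) ^ 2 := by
      rw [← hk j S hS']
      have : 1 ≤ (k j S) ^ 2 := by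
        have := sq_pos_of_ne_zero hj
        omega
      exact_mod_cast this
    exact le_trans h3 (Finset.single_le_sum (f := fun j => (kW P (d j) S) ^ 2)
      (fun i _ => sq_nonneg _) (Finset.mem_univ j))
  rw [Finset.sum_comm] at h1
  simp only [kW_parseval] at h1
  rw [← Finset.mul_sum] at h1
  have h4 : (2:ℝ) ^ P.card * 1 ≤ 2 ^ P.card * ∑ j, ∑ A ∈ P.powerset, ((d j A : ℚ) : ℝ) ^ 2 := by
    rw [mul_one]; exact h1
  exact le_of_mul_le_mul_left h4 hcard

lemma pr_insert {q : ℕ} {A : Finset ℕ} (h : q ∉ A) : pr (insert q A) = q * pr A := by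
  unfold pr; rw [Finset.prod_insert h]

lemma pr_union {A B : Finset ℕ} (h : Disjoint A B) : pr (A ∪ B) = pr A * pr B := by
  unfold pr; rw [Finset.prod_union h]

/-- two elements in the same coset have products that are not too close -/
lemma near {P0 P1 : Finset ℕ} {q : ℕ} (hd : Disjoint P0 P1) (hqP : q ∉ P0 ∪ P1)
    (hq : q.Prime) (hP : ∀ p ∈ P0 ∪ P1, p.Prime) {v : ℝ} :
    ∀ A ⊆ P0, ∀ A' ⊆ P0, ∀ B ⊆ P1, v ≤ (pr (insert q (A ∪ B)) : ℝ) →
      v ≤ (pr (insert q (A' ∪ B)) : ℝ) →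
      (pr (insert q (A ∪ B)) : ℝ) < (1 + (pr P0 : ℝ)⁻¹) * v →
      (pr (insert q (A' ∪ B)) : ℝ) < (1 + (pr P0 : ℝ)⁻¹) * v → A = A' := by
  have hP0 : ∀ p ∈ P0, p.Prime := fun p hp => hP p (Finset.mem_union_left _ hp)
  have hP1 : ∀ p ∈ P1, p.Prime := fun p hp => hP p (Finset.mem_union_right _ hp)
  have hpos : (0:ℝ) < pr P0 := by exact_mod_cast pr_pos hP0
  have key : ∀ A ⊆ P0, ∀ A' ⊆ P0, ∀ B ⊆ P1, v ≤ (pr (insert q (A ∪ B)) : ℝ) →
      (pr (insert q (A' ∪ B)) : ℝ) < (1 + (pr P0 : ℝ)⁻¹) * v → pr A < pr A' → False := by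
    intro A hA A' hA' B hB h1 h2 hlt
    have hform : ∀ D ⊆ P0, pr (insert q (D ∪ B)) = q * (pr D * pr B) := by
      intro D hD
      rw [pr_insert, pr_union]
      · exact Finset.disjoint_of_subset_left hD (Finset.disjoint_of_subset_right hB hd)
      · intro h
        exact hqP (Finset.union_subset_union hD hB h)
    rw [hform A hA] at h1
    rw [hform A' hA'] at h2
    have hA0 : (0:ℝ) < pr A := by exact_mod_cast pr_pos (fun p hp => hP0 p (hA hp))
    have hB0 : (0:ℝ) < pr B := by exact_mod_cast pr_pos (fun p hp => hP1 p (hB hp))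
    have hq0 : (0:ℝ) < q := by exact_mod_cast hq.pos
    have hle : (pr A : ℝ) ≤ pr P0 := by
      exact_mod_cast Nat.le_of_dvd (pr_pos hP0) (Finset.prod_dvd_prod_of_subset _ _ _ hA)
    have hlt' : (pr A : ℝ) + 1 ≤ pr A' := by exact_mod_cast hlt
    push_cast at h1 h2
    -- pr A' ≥ pr A (1 + 1 / pr P0)
    have h3 : (1 + (pr P0 : ℝ)⁻¹) * pr A ≤ pr A' := by
      have : (pr P0 : ℝ)⁻¹ * pr A ≤ 1 := by
        rw [inv_mul_le_iff₀ hpos]; linarith
      linarith
    have h4 : (1 + (pr P0 : ℝ)⁻¹) * v ≤ (q:ℝ) * (pr A' * pr B) := by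
      calc (1 + (pr P0 : ℝ)⁻¹) * v ≤ (1 + (pr P0 : ℝ)⁻¹) * ((q:ℝ) * (pr A * pr B)) :=
            mul_le_mul_of_nonneg_left h1 (by positivity)
        _ = ((1 + (pr P0 : ℝ)⁻¹) * pr A) * (q * pr B) := by ring
        _ ≤ (pr A') * (q * pr B) := mul_le_mul_of_nonneg_right h3 (by positivity)
        _ = (q:ℝ) * (pr A' * pr B) := by ring
    linarith
  intro A hA A' hA' B hB h1 h2 h3 h4
  rcases lt_trichotomy (pr A) (pr A') with h | h | h
  · exact absurd (key A hA A' hA' B hB h1 h4 h) id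
  · exact pr_inj (fun p hp => hP0 p (hA hp)) (fun p hp => hP0 p (hA' hp)) h
  · exact absurd (key A' hA' A hA B hB h2 h3 h) id

theorem core {P0 P1 : Finset ℕ} {q n m : ℕ} (hd : Disjoint P0 P1) (hqP : q ∉ P0 ∪ P1)
    (h2q : q ≠ 2) (h2P : 2 ∉ P0 ∪ P1) (hq : q.Prime) (hP : ∀ p ∈ P0 ∪ P1, p.Prime)
    (cy : Fin n → Finset ℕ → ℚ) (cs : Fin m → Finset ℕ → ℚ) (Au Av : Finset ℕ)
    (hAu : Au ⊆ P0) (hAv : Av ⊆ insert q (P0 ∪ P1)) (hqv : q ∈ Av)
    (hyi : ∀ j S, IsIntegral ℤ (cj (insert 2 (insert q (P0 ∪ P1))) (cy j) S))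
    (hsi : ∀ j S, IsIntegral ℤ (cj (insert 2 (insert q (P0 ∪ P1))) (cs j) S))
    (hxi : ∀ S, IsIntegral ℤ (cj (insert 2 (insert q (P0 ∪ P1))) (cxf Au Av) S))
    (hid : ∀ S, ∑ j, (cj (insert 2 (insert q (P0 ∪ P1))) (cy j) S) ^ 2
      = (cj (insert 2 (insert q (P0 ∪ P1))) (cxf Au Av) S) ^ 2
        + ∑ i, (cj (insert 2 (insert q (P0 ∪ P1))) (cs i) S) ^ 2)
    (hsq : ∀ i A, cs i A ≠ 0 → q ∉ A)
    (hmin : ∀ j A, cy j A ≠ 0 → q ∈ A → 2 ∉ A → pr Av ≤ pr A)
    (C : ℝ) (hC : 4 * ∑ i, T (insert 2 (insert q (P0 ∪ P1))) (cs i) + pr Au ≤ C)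
    (hC4 : ∀ p ∈ insert 2 (insert q (P0 ∪ P1)), (p:ℝ) ≤ 4 * C → p ∈ insert 2 P0)
    (hv1 : 24 * 2 ^ P0.card * C * pr P0 ≤ pr Av) (hv2 : 4 * C < pr Av) :
    ∃ j0, (∀ j, ∀ A ⊆ insert 2 (P0 ∪ P1), cy j A ≠ 0 → A ⊆ insert 2 P0)
      ∧ (∀ j, 4 * T (insert 2 (P0 ∪ P1)) (cy j) ≤ C)
      ∧ (∀ i, i ≠ j0 → ∀ A ⊆ insert 2 (insert q (P0 ∪ P1)), q ∈ A → cy i A = 0)
      ∧ (∀ i, i ≠ j0 → 4 * T (insert 2 (insert q (P0 ∪ P1))) (cy i) ≤ C) := by
  classical
  set Ps := P0 ∪ P1 with hPs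
  set Po := insert q Ps with hPo
  set P := insert 2 Po with hPd
  set P' := insert 2 Ps with hP'
  have hPe : P = insert q P' := by rw [hPd, hPo, hP']; exact Finset.insert_comm _ _ _
  have hqP' : q ∉ P' := by rw [hP', Finset.mem_insert, not_or]; exact ⟨h2q, hqP⟩
  have h2Po : 2 ∉ Po := by rw [hPo, Finset.mem_insert, not_or]; exact ⟨fun h => h2q h.symm, h2P⟩
  have hPop : ∀ p ∈ Po, p.Prime := by
    intro p hp
    rw [hPo, Finset.mem_insert] at hp
    rcases hp with rfl | hp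
    · exact hq
    · exact hP p hp
  have hPp : ∀ p ∈ P, p.Prime := by
    intro p hp
    rw [hPd, Finset.mem_insert] at hp
    rcases hp with rfl | hp
    · exact Nat.prime_two
    · exact hPop p hp
  have hP'p : ∀ p ∈ P', p.Prime := fun p hp => hPp p (by rw [hPe]; exact Finset.mem_insert_of_mem hp)
  have hAuP : Au ⊆ P := hAu.trans (Finset.subset_union_left.trans
    ((Finset.subset_insert _ _).trans (Finset.subset_insert _ _)))
  have hAvP : Av ⊆ P := hAv.trans (Finset.subset_insert _ _)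
  have hqAu : q ∉ Au := fun h => hqP (Finset.mem_union_left _ (hAu h))
  have hne : Au ≠ Av := fun h => hqAu (h ▸ hqv)
  have hAvprime : ∀ p ∈ Av, p.Prime := fun p hp => hPp p (hAvP hp)
  have hvpos : (0:ℝ) < pr Av := by exact_mod_cast pr_pos hAvprime
  -- trace identity
  have hTid : ∑ j, T P (cy j) = (pr Au + pr Av) / 4 + ∑ i, T P (cs i) := by
    rw [← T_cxf hAuP hAvP hne]
    have h1 : (2:ℝ) ^ P.card * ∑ j, T P (cy j)
        = 2 ^ P.card * (T P (cxf Au Av) + ∑ i, T P (cs i)) := by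
      rw [mul_add, Finset.mul_sum, Finset.mul_sum]
      simp only [← parseval_T]
      rw [Finset.sum_comm, Finset.sum_comm (s := Finset.univ) (t := P.powerset),
        ← Finset.sum_add_distrib]
      exact Finset.sum_congr rfl (fun S _ => hid S)
    have h2 : (2:ℝ) ^ P.card ≠ 0 := by positivity
    exact mul_left_cancel₀ h2 h1
  set c' : Fin n → Finset ℕ → ℚ := fun j A => cy j (insert q A) with hc'
  have hTs : ∀ j, T P (cy j) = T P' (cy j) + q * T P' (c' j) := by
    intro j; rw [hPe]; exact T_insert hqP' (cy j)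
  set TA : Fin n → ℝ := fun j => 4 * T P' (cy j) with hTA
  set TZ : Fin n → ℝ := fun j => 4 * q * T P' (c' j) with hTZ
  have hTA0 : ∀ j, 0 ≤ TA j := fun j => by have := T_nonneg P' (cy j); rw [hTA]; positivity
  have hTZ0 : ∀ j, 0 ≤ TZ j := fun j => by have := T_nonneg P' (c' j); rw [hTZ]; positivity
  have hTtot : ∑ j, TA j + ∑ j, TZ j ≤ pr Av + C := by
    rw [← Finset.sum_add_distrib]
    have : ∑ j, (TA j + TZ j) = 4 * ∑ j, T P (cy j) := by
      rw [Finset.mul_sum]
      apply Finset.sum_congr rfl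
      intro j _
      rw [hTs, hTA, hTZ]; ring
    rw [this, hTid]
    linarith
  -- weights
  set d : Fin n → Finset ℕ → ℚ := fun j A => 2 * cy j (insert q A) * (sA (insert q A) : ℚ) with hdd
  set w : Finset ℕ → ℝ := fun A => (pr (insert q A) : ℝ) with hw
  have hwd : ∀ j, ∑ A ∈ Ps.powerset, w A * ((d j A : ℚ) : ℝ) ^ 2 ≤ TZ j := by
    intro j
    have h1 : T P' (c' j) = T Ps (c' j) + (2:ℕ) * T Ps (fun A => c' j (insert 2 A)) := T_insert h2P _
    have h2 := T_nonneg Ps (fun A => c' j (insert 2 A))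
    have h3 : ∑ A ∈ Ps.powerset, w A * ((d j A : ℚ) : ℝ) ^ 2 = 4 * q * T Ps (c' j) := by
      unfold T ev
      rw [Finset.mul_sum]
      apply Finset.sum_congr rfl
      intro A hA
      have hqA : q ∉ A := fun h => hqP (Finset.mem_powerset.mp hA h)
      rw [hw, hdd, hc']
      simp only
      rw [pr_insert hqA]
      unfold pr
      push_cast
      have hs : ((sA (insert q A) : ℤ) : ℝ) ^ 2 = 1 := by exact_mod_cast sA_sq (insert q A)
      rw [mul_pow, hs]
      ring
    rw [h3, hTZ]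
    simp only
    rw [h1]
    have hq0 : (0:ℝ) ≤ q := Nat.cast_nonneg q
    push_cast
    nlinarith [mul_nonneg hq0 h2]
  have hwv : ∀ j, ∀ A ⊆ Ps, d j A ≠ 0 → (pr Av : ℝ) ≤ w A := by
    intro j A hA h0
    have h1 : cy j (insert q A) ≠ 0 := by
      intro h; apply h0; rw [hdd]; simp only; rw [h]; ring
    have h2 : 2 ∉ insert q A := by
      rw [Finset.mem_insert, not_or]; exact ⟨fun h => h2q h.symm, fun h => h2P (hA h)⟩
    have := hmin j (insert q A) h1 (Finset.mem_insert_self _ _) h2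
    rw [hw]; simp only; exact_mod_cast this
  -- integer valued functions
  have hz : ∀ j S, ∃ z : ℤ, (z:ℚ) = hW Po (cy j) S := fun j S => h_int h2Po hPop (hyi j) S
  choose z hz using hz
  set k : Fin n → Finset ℕ → ℤ := fun j S => z j S - z j (insert q S) with hk
  have hqS : ∀ S ⊆ Ps, q ∉ S := fun S hS h => hqP (hS h)
  have hkq : ∀ j, ∀ S ⊆ Ps, ((k j S : ℤ) : ℚ) = ∑ A ∈ Ps.powerset, d j A * (chi S A : ℚ) := by
    intro j S hS
    rw [hk]
    simp only
    push_cast
    rw [hz, hz, hPo, hW_diff hqP _ (hqS S hS)]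
  have hkW : ∀ j, ∀ S ⊆ Ps, (k j S : ℝ) = kW Ps (d j) S := by
    intro j S hS
    rw [kW_eq, ← hkq j S hS]; push_cast; rfl
  -- parity of the sum
  have hodd : ∀ S ⊆ Ps, Odd (∑ j, k j S) := by
    intro S hS
    set ct : Finset ℕ → ℚ := fun A => ∑ j, cy j A - cxf Au Av A - ∑ i, cs i A with hct
    have hti : ∀ S, IsIntegral ℤ (cj P ct S) := by
      intro S
      rw [hct, cj_lin]
      exact ((IsIntegral.sum _ (fun i _ => hyi i S)).sub (hxi S)).sub
        (IsIntegral.sum _ (fun i _ => hsi i S))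
    have hti2 : ∀ S, IsIntegral ℤ ((cj P ct S) ^ 2 / 2) := by
      intro S
      rw [hct, cj_lin]
      exact t_even (fun i => hyi i S) (fun i => hsi i S) (hxi S) (hid S)
    have h1 := h_even h2Po hPop hti hti2
    obtain ⟨a, ha⟩ := h1 S
    obtain ⟨b, hb⟩ := h1 (insert q S)
    rw [hct, hW_lin] at ha hb
    have hcs : ∀ i, hW Po (cs i) S = hW Po (cs i) (insert q S) := by
      intro i
      have h2 := hW_diff hqP (cs i) (hqS S hS)
      rw [← hPo] at h2
      have h3 : ∑ A ∈ Ps.powerset, (2 * cs i (insert q A) * (sA (insert q A) : ℚ)) * (chi S A : ℚ)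
          = 0 := by
        apply Finset.sum_eq_zero
        intro A _
        have : cs i (insert q A) = 0 := by
          by_contra h
          exact hsq i _ h (Finset.mem_insert_self _ _)
        rw [this]; ring
      rw [h3] at h2
      linarith
    have hcx : ∃ e : ℤ, (e = 1 ∨ e = -1) ∧ hW Po (cxf Au Av) S - hW Po (cxf Au Av) (insert q S) = e := by
      have hlin : ∀ S, hW Po (cxf Au Av) S = hW Po (sing Au (1/2)) S + hW Po (sing Av (1/2)) S := by
        intro S
        unfold hW cxf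
        rw [← Finset.sum_add_distrib]
        apply Finset.sum_congr rfl
        intro A _; ring
      have hAuPo : Au ⊆ Po := hAu.trans (Finset.subset_union_left.trans (Finset.subset_insert _ _))
      have hAe : Av = insert q (Av.erase q) := (Finset.insert_erase hqv).symm
      have hqe : q ∉ Av.erase q := Finset.notMem_erase q Av
      have e1 : chi (insert q S) Au = chi S Au := chi_insert_S hqAu
      have e2 : chi (insert q S) Av = - chi S (Av.erase q) := by
        conv_lhs => rw [hAe]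
        exact chi_insert_both hqe
      have e3 : chi S Av = chi S (Av.erase q) := by
        conv_lhs => rw [hAe]
        exact chi_insert_A hqe (hqS S hS)
      refine ⟨sA Av * chi S (Av.erase q), ?_, ?_⟩
      · have h5 : sA Av = 1 ∨ sA Av = -1 := mul_self_eq_one_iff.mp (by rw [← sq]; exact sA_sq Av)
        rcases h5 with h5 | h5 <;> rcases chi_abs S (Av.erase q) with h6 | h6 <;>
          rw [h5, h6] <;> simp
      · rw [hlin, hlin, hW_sing hAuPo, hW_sing hAuPo, hW_sing hAv, hW_sing hAv, e1, e2, e3]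
        push_cast; ring
    obtain ⟨e, he, hee⟩ := hcx
    have h4 : ∑ j, k j S = 2 * (a - b) + e := by
      have : ((∑ j, k j S : ℤ) : ℚ) = 2 * ((a:ℚ) - b) + e := by
        rw [hk]
        push_cast
        rw [Finset.sum_sub_distrib]
        simp only [hz]
        rw [Finset.sum_congr rfl (fun i _ => hcs i)] at ha
        linarith
      exact_mod_cast this
    rw [h4]
    rcases he with rfl | rfl
    · exact ⟨a - b, by ring⟩
    · exact ⟨a - b - 1, by ring⟩
  -- lower bound for the sum of TZ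
  have hN1 := sum_N_ge_one d k hkW hodd
  have hTZ1 : (pr Av : ℝ) ≤ ∑ j, TZ j := by
    have h1 : (pr Av : ℝ) * ∑ j, ∑ A ∈ Ps.powerset, ((d j A : ℚ) : ℝ) ^ 2
        ≤ ∑ j, ∑ A ∈ Ps.powerset, w A * ((d j A : ℚ) : ℝ) ^ 2 := by
      rw [Finset.mul_sum]
      apply Finset.sum_le_sum
      intro j _
      rw [Finset.mul_sum]
      apply Finset.sum_le_sum
      intro A hA
      by_cases h0 : d j A = 0
      · rw [h0]; simp
      · exact mul_le_mul_of_nonneg_right (hwv j A (Finset.mem_powerset.mp hA) h0) (sq_nonneg _)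
    have h2 : ∑ j, ∑ A ∈ Ps.powerset, w A * ((d j A : ℚ) : ℝ) ^ 2 ≤ ∑ j, TZ j :=
      Finset.sum_le_sum (fun j _ => hwd j)
    nlinarith
  have hTAC : ∑ j, TA j ≤ C := by linarith
  have hTAj : ∀ j, TA j ≤ C := fun j => le_trans
    (Finset.single_le_sum (fun i _ => hTA0 i) (Finset.mem_univ j)) hTAC
  have hC0 : 0 ≤ C := by
    have h1 : 0 ≤ ∑ i, T P (cs i) := Finset.sum_nonneg (fun i _ => T_nonneg _ _)
    have h2 : (0:ℝ) ≤ pr Au := Nat.cast_nonneg _
    linarith
  -- support of cy on P'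
  have hsupp : ∀ j, ∀ A ⊆ P', cy j A ≠ 0 → A ⊆ insert 2 P0 := by
    intro j A hA h0 p hp
    have hi : ∀ S, IsIntegral ℤ (cj P' (fun A => 2 * cy j A) S) := by
      intro S
      have h1 := (hyi j (S.erase q)).add (hyi j (insert q S))
      rw [hPe, cj_insert hqP', cj_insert hqP',
        sg_erase, sg_insert] at h1
      have hn1 : ∀ d : Finset ℕ → ℚ, cj P' d (S.erase q) = cj P' d S := by
        intro d
        apply cj_S_congr
        intro r hr
        have hrq : r ≠ q := fun h => hqP' (h ▸ hr)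
        simp [hrq]
      have hn2 : ∀ d : Finset ℕ → ℚ, cj P' d (insert q S) = cj P' d S := by
        intro d
        apply cj_S_congr
        intro r hr
        have hrq : r ≠ q := fun h => hqP' (h ▸ hr)
        simp [hrq]
      rw [hn1, hn1, hn2, hn2] at h1
      rw [cj_smul]
      exact int_congr h1 (by push_cast; ring)
    have h1 := support_bound hP'p hi hA (mul_ne_zero two_ne_zero h0) hp
    rw [T_smul] at h1
    have h2 := hTAj j
    rw [hTA] at h2
    simp only at h2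
    push_cast at h1
    apply hC4 p
    · rw [hPe]
      exact Finset.mem_insert_of_mem (hA hp)
    · nlinarith
  -- parity depends only on the P0 part
  have hpar : ∀ j, ∀ S ⊆ Ps, Even (k j S - k j (S ∩ P0)) := by
    intro j S hS
    have hS' : S ∩ P0 ⊆ Ps := Finset.inter_subset_left.trans hS
    have h1 := hW_add' hqP (cy j) (hqS S hS)
    have h2 := hW_add' hqP (cy j) (hqS (S ∩ P0) hS')
    have h3 : ∑ A ∈ Ps.powerset, (2 * cy j A * (sA A : ℚ)) * (chi S A : ℚ)
        = ∑ A ∈ Ps.powerset, (2 * cy j A * (sA A : ℚ)) * (chi (S ∩ P0) A : ℚ) := by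
      apply Finset.sum_congr rfl
      intro A hA
      have hA' := Finset.mem_powerset.mp hA
      by_cases h0 : cy j A = 0
      · rw [h0]; ring
      · have h4 := hsupp j A (hA'.trans (Finset.subset_insert _ _)) h0
        have h5 : chi S A = chi (S ∩ P0) A := by
          unfold chi
          apply Finset.prod_congr rfl
          intro p hp
          have h6 : p ∈ P0 := by
            have := h4 hp
            rw [Finset.mem_insert] at this
            rcases this with rfl | h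
            · exact absurd (hA' hp) h2P
            · exact h
          simp [h6]
        rw [h5]
    rw [← h2] at h3
    rw [h3] at h1
    rw [← hPo, ← hz, ← hz, ← hz, ← hz] at h1
    have h4 : z j S + z j (insert q S) = z j (S ∩ P0) + z j (insert q (S ∩ P0)) := by
      exact_mod_cast h1
    refine ⟨z j (insert q (S ∩ P0)) - z j (insert q S), ?_⟩
    rw [hk]
    simp only
    linarith
  -- main lemma
  have hP0p : ∀ p ∈ P0, p.Prime := fun p hp => hP p (Finset.mem_union_left _ hp)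
  have hP0pos : (0:ℝ) < pr P0 := by exact_mod_cast pr_pos hP0p
  have hwalsh := walsh_main hd d k w (pr Av : ℝ) C ((pr P0 : ℝ)⁻¹) hkW hpar hodd hwv
    (by
      intro A hA A' hA' B hB h1 h2 h3 h4
      exact near hd hqP hq hP A hA A' hA' B hB h1 h2 h3 h4)
    (by
      have h2 : ∑ j, ∑ A ∈ Ps.powerset, w A * ((d j A : ℚ) : ℝ) ^ 2 ≤ ∑ j, TZ j :=
        Finset.sum_le_sum (fun j _ => hwd j)
      have h3 : 0 ≤ ∑ j, TA j := Finset.sum_nonneg (fun j _ => hTA0 j)
      linarith)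
    hvpos (inv_pos.mpr hP0pos) hC0
    (by
      rw [inv_mul_eq_div, le_div_iff₀ hP0pos]
      exact hv1)
    hv2
  obtain ⟨j0, hj0⟩ := hwalsh
  have hTZj0 : (pr Av : ℝ) ≤ TZ j0 := by
    have h1 : (pr Av : ℝ) * ∑ A ∈ Ps.powerset, ((d j0 A : ℚ) : ℝ) ^ 2
        ≤ ∑ A ∈ Ps.powerset, w A * ((d j0 A : ℚ) : ℝ) ^ 2 := by
      rw [Finset.mul_sum]
      apply Finset.sum_le_sum
      intro A hA
      by_cases h0 : d j0 A = 0
      · rw [h0]; simp
      · exact mul_le_mul_of_nonneg_right (hwv j0 A (Finset.mem_powerset.mp hA) h0) (sq_nonneg _)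
    have h2 := hwd j0
    nlinarith
  have hrest : ∀ i, i ≠ j0 → TA i + TZ i ≤ C := by
    intro i hi
    have h1 : TZ i + TZ j0 ≤ ∑ j, TZ j := by
      rw [← Finset.sum_pair hi]
      exact Finset.sum_le_sum_of_subset_of_nonneg (Finset.subset_univ _) (fun i _ _ => hTZ0 i)
    have h2 : TA i ≤ ∑ j, TA j := Finset.single_le_sum (fun i _ => hTA0 i) (Finset.mem_univ i)
    linarith
  have hT4 : ∀ i, i ≠ j0 → 4 * T P (cy i) ≤ C := by
    intro i hi
    have h1 := hrest i hi
    rw [hTs]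
    rw [hTA, hTZ] at h1
    simp only at h1
    linarith
  refine ⟨j0, hsupp, hTAj, ?_, hT4⟩
  intro i hi A hA hqA
  by_contra h0
  have h1 := support_bound hPp (hyi i) hA h0 hqA
  have h2 := hT4 i hi
  have h3 : q ∈ insert 2 P0 := by
    apply hC4 q
    · exact hA hqA
    · linarith
  rw [Finset.mem_insert] at h3
  rcases h3 with h3 | h3
  · exact h2q h3
  · exact hqP (Finset.mem_union_left _ h3)

end Pool.Agent.H421MQ
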