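import Mathlib
import Pool.Agent.H421MQ.Core2

open Finset

namespace Pool.Agent.H421MQ

/-- every sum of squares of integers of the field is a sum of `n` squares of integers -/
def SSn (S : Set ℕ) (n : ℕ) : Prop := ∀ (m : ℕ) (a : Fin m → ℝ),
  (∀ i, a i ∈ KF S ∧ IsIntegral ℤ (a i)) →
    ∃ b : Fin n → ℝ, (∀ i, b i ∈ KF S ∧ IsIntegral ℤ (b i)) ∧ ∑ i, (a i) ^ 2 = ∑ i, (b i) ^ 2

lemma cj_cxf_empty {P A B : Finset ℕ} (hA : A ⊆ P) (hB : B ⊆ P) :
    cj P (cxf A B) ∅ = (rr A + rr B) / 2 := by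
  unfold cj cxf
  rw [ev_add, ev_sing _ hA, ev_sing _ hB]
  have : ∀ D : Finset ℕ, ∏ p ∈ D, (sg ∅ p * √(p:ℝ)) = rr D := by
    intro D
    unfold rr
    apply Finset.prod_congr rfl
    intro p _; simp [sg]
  rw [this, this]; push_cast; ring

lemma cj_cxf_q {P A B : Finset ℕ} {q : ℕ} (hA : A ⊆ P) (hB : B ⊆ P) (hqA : q ∉ A) (hqB : q ∈ B) :
    cj P (cxf A B) {q} = (rr A - rr B) / 2 := by
  unfold cj cxf
  rw [ev_add, ev_sing _ hA, ev_sing _ hB]
  have h1 : ∏ p ∈ A, (sg {q} p * √(p:ℝ)) = rr A := by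
    unfold rr
    apply Finset.prod_congr rfl
    intro p hp
    have : p ≠ q := fun h => hqA (h ▸ hp)
    simp [sg, this]
  have h2 : ∏ p ∈ B, (sg {q} p * √(p:ℝ)) = - rr B := by
    unfold rr
    rw [← Finset.insert_erase hqB, Finset.prod_insert (Finset.notMem_erase q B),
      Finset.prod_insert (Finset.notMem_erase q B)]
    have h3 : ∏ p ∈ B.erase q, (sg {q} p * √(p:ℝ)) = ∏ p ∈ B.erase q, √(p:ℝ) := by
      apply Finset.prod_congr rfl
      intro p hp
      have : p ≠ q := (Finset.mem_erase.mp hp).1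
      simp [sg, this]
    rw [h3]
    have : sg {q} q = -1 := by simp [sg]
    rw [this]; ring
  rw [h1, h2]; push_cast; ring

lemma A3_exists (S : Set ℕ) : ∃ A3, Vset S A3 ∧ 2 ∉ A3 ∧
    (∀ B, Vset S B → 2 ∉ B → pr B % 4 = 3 → pr A3 % 4 = 3) := by
  by_cases h : ∃ B, Vset S B ∧ 2 ∉ B ∧ pr B % 4 = 3
  · obtain ⟨B, h1, h2, h3⟩ := h
    exact ⟨B, h1, h2, fun _ _ _ _ => h3⟩
  · push Not at h
    exact ⟨∅, V_empty S, by simp, fun B h1 h2 h3 => absurd h3 (h B h1 h2)⟩

/-- the possible values of `v` in the exceptional case form a finite set -/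
lemma exc_finite (n : ℕ) {𝒜 : Set ℝ} (h𝒜 : 𝒜.Finite) (α u₁ : ℝ) :
    {v : ℝ | ∃ ζ : Fin n → ℝ, (∀ j, ζ j ∈ 𝒜) ∧ ∃ u : ℝ, (u = 1 ∨ u = u₁) ∧ ∃ j0 : Fin n,
      v = ζ j0 ^ 2 * (4 * α + u - ∑ j, ζ j ^ 2) / (u - ζ j0 ^ 2)}.Finite := by
  have h1 : (Set.pi Set.univ (fun _ : Fin n => 𝒜)).Finite := Set.Finite.pi (fun _ => h𝒜)
  have h2 : ({1, u₁} : Set ℝ).Finite := Set.toFinite _
  have h3 : (Set.univ : Set (Fin n)).Finite := Set.finite_univ
  apply (((h1.prod h2).prod h3).image (fun x : ((Fin n → ℝ) × ℝ) × Fin n =>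
    x.1.1 x.2 ^ 2 * (4 * α + x.1.2 - ∑ j, x.1.1 j ^ 2) / (x.1.2 - x.1.1 x.2 ^ 2))).subset
  rintro v ⟨ζ, hζ, u, hu, j0, rfl⟩
  refine ⟨((ζ, u), j0), ⟨⟨?_, ?_⟩, Set.mem_univ _⟩, rfl⟩
  · exact fun j _ => hζ j
  · rcases hu with h | h
    · exact Or.inl h
    · exact Or.inr h

theorem step {S : Set ℕ} (hinf : ¬ FiniteDimensional ℚ (KF S)) {n : ℕ} (H : SSn S (n + 1)) :
    SSn S n := by
  classical
  intro m s hs
  choose Ps cs hPs1 hPs2 hPs3 hPs4 using fun i => repr (hs i).1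
  set Psu : Finset ℕ := Finset.univ.biUnion Ps with hPsu
  have hPsi : ∀ i, Ps i ⊆ Psu := fun i => Finset.subset_biUnion_of_mem Ps (Finset.mem_univ i)
  have hPsup : ∀ p ∈ Psu, p.Prime := by
    intro p hp
    rw [hPsu, Finset.mem_biUnion] at hp
    obtain ⟨i, _, hi⟩ := hp
    exact hPs1 i p hi
  obtain ⟨A3, hA3V, h2A3, hA3⟩ := A3_exists S
  set C : ℝ := 4 * ∑ i, T Psu (cs i) + pr A3 with hCdef
  have hτ : 0 ≤ ∑ i, T Psu (cs i) := Finset.sum_nonneg (fun i _ => T_nonneg _ _)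
  have hA3pos : (1:ℝ) ≤ pr A3 := by exact_mod_cast pr_pos hA3V.1
  have hCpos : 0 < C := by rw [hCdef]; linarith
  obtain ⟨N0, hN0⟩ := exists_nat_ge (4 * C)
  set B0 : ℕ := N0 + pr Psu + pr A3 + 2 with hB0
  set P0 : Finset ℕ := ((Finset.range (B0 + 1)).filter Nat.Prime).erase 2 with hP0
  have hP0mem : ∀ p, p ∈ P0 ↔ (p ≠ 2 ∧ p ≤ B0 ∧ p.Prime) := by
    intro p
    rw [hP0, Finset.mem_erase, Finset.mem_filter, Finset.mem_range, Nat.lt_succ_iff]
  have hP0in : ∀ p, p.Prime → p ≤ B0 → p ∈ insert 2 P0 := by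
    intro p hp hle
    rw [Finset.mem_insert, hP0mem]
    by_cases h : p = 2
    · exact Or.inl h
    · exact Or.inr ⟨h, hle, hp⟩
  have hPsuP0 : Psu ⊆ insert 2 P0 := by
    intro p hp
    apply hP0in p (hPsup p hp)
    have := le_pr hPsup hp
    omega
  have hA3P0 : A3 ⊆ P0 := by
    intro p hp
    rw [hP0mem]
    refine ⟨fun h => h2A3 (h ▸ hp), ?_, hA3V.1 p hp⟩
    have := le_pr hA3V.1 hp
    omega
  have hP0p : ∀ p ∈ P0, p.Prime := fun p hp => ((hP0mem p).mp hp).2.2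
  have hP02 : ∀ p ∈ insert 2 P0, p.Prime := by
    intro p hp
    rw [Finset.mem_insert] at hp
    rcases hp with rfl | hp
    · exact Nat.prime_two
    · exact hP0p p hp
  set α : ℝ := ∑ i, (s i) ^ 2 with hα
  -- finite exceptional set
  have hfin := northcott (insert 2 P0) hP02 C
  set 𝒜 : Set ℝ := {ζ : ℝ | ∃ c : Finset ℕ → ℚ, (∀ S, IsIntegral ℤ (cj (insert 2 P0) c S)) ∧
    T (insert 2 P0) c ≤ C ∧ ζ = cj (insert 2 P0) c ∅} with h𝒜
  obtain ⟨M, hM⟩ := (exc_finite (n + 1) hfin α (pr A3)).bddAbove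
  obtain ⟨B1', hB1'⟩ := exists_nat_ge (|M| + 24 * 2 ^ P0.card * C * pr P0 + 4 * C)
  set B1 : ℕ := B1' + B0 with hB1
  set Pb : Finset ℕ := (Finset.range (B1 + 1)).filter Nat.Prime with hPb
  obtain ⟨Av, hAvV, h2Av, hAvP, hAvmin⟩ := V_min hinf Pb
  obtain ⟨q, hqv, hqPb⟩ := Finset.not_subset.mp hAvP
  have hqp : q.Prime := hAvV.1 q hqv
  have hqB1 : B1 < q := by
    by_contra h
    push Not at h
    apply hqPb
    rw [hPb, Finset.mem_filter, Finset.mem_range, Nat.lt_succ_iff]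
    exact ⟨h, hqp⟩
  have hqle : q ≤ pr Av := le_pr hAvV.1 hqv
  have hB0B1 : B0 ≤ B1 := by omega
  have hqB0 : B0 < q := by omega
  have hq2 : q ≠ 2 := by omega
  have hvB1 : (B1' : ℝ) < pr Av := by
    have : B1' < pr Av := by omega
    exact_mod_cast this
  have hpos1 : 0 ≤ 24 * 2 ^ P0.card * C * pr P0 := by positivity
  have habsM := abs_nonneg M
  have hleM := le_abs_self M
  -- the choice of u
  obtain ⟨Au, hAuV, h2Au, hAuP0, hAumod, hAuval, hAule⟩ : ∃ Au, Vset S Au ∧ 2 ∉ Au ∧ Au ⊆ P0 ∧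
      (∃ e : ℤ, (pr Au : ℤ) - pr Av = 4 * e) ∧ (((pr Au : ℕ) : ℝ) = 1 ∨ ((pr Au : ℕ) : ℝ) = pr A3) ∧
      pr Au ≤ pr A3 := by
    have hodd := pr_odd hAvV.1 h2Av
    by_cases h1 : pr Av % 4 = 1
    · refine ⟨∅, V_empty S, by simp, by simp, ⟨-((pr Av / 4 : ℕ) : ℤ), ?_⟩, Or.inl (by simp [pr]), ?_⟩
      · have : pr (∅ : Finset ℕ) = 1 := by simp [pr]
        rw [this]
        push_cast
        omega
      · have : pr (∅ : Finset ℕ) = 1 := by simp [pr]
        rw [this]; exact pr_pos hA3V.1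
    · have h3 : pr Av % 4 = 3 := by
        obtain ⟨t, ht⟩ := hodd
        omega
      have h3' := hA3 Av hAvV h2Av h3
      refine ⟨A3, hA3V, h2A3, hA3P0, ⟨((pr A3 / 4 : ℕ) : ℤ) - ((pr Av / 4 : ℕ) : ℤ), ?_⟩,
        Or.inr rfl, le_refl _⟩
      push_cast
      omega
  have hqAu : q ∉ Au := fun h => by
    have := ((hP0mem q).mp (hAuP0 h)).2.1
    omega
  -- the element x
  set x : ℝ := (rr Au + rr Av) / 2 with hx
  have hxK : x ∈ KF S := by
    rw [hx]
    exact (KF S).div_mem ((KF S).add_mem hAuV.2 hAvV.2) (by exact_mod_cast natCast_mem (KF S) 2)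
  have hxI : IsIntegral ℤ x := x_integral hAumod
  obtain ⟨y, hy, hyeq⟩ := H (m + 1) (Fin.cons x s) (by
    intro i
    refine Fin.cases ?_ ?_ i
    · simpa using ⟨hxK, hxI⟩
    · intro j; simpa using hs j)
  rw [Fin.sum_univ_succ] at hyeq
  simp only [Fin.cons_zero, Fin.cons_succ] at hyeq
  choose Py cy hPy1 hPy2 hPy3 hPy4 using fun i => repr (hy i).1
  set P1 : Finset ℕ := (((Av ∪ Finset.univ.biUnion Py) \ P0).erase q).erase 2 with hP1
  have hP1p : ∀ p ∈ P1, p.Prime := by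
    intro p hp
    rw [hP1, Finset.mem_erase, Finset.mem_erase, Finset.mem_sdiff, Finset.mem_union,
      Finset.mem_biUnion] at hp
    rcases hp.2.2.1 with h | ⟨i, _, h⟩
    · exact hAvV.1 p h
    · exact hPy1 i p h
  have hd : Disjoint P0 P1 := by
    rw [Finset.disjoint_left]
    intro p hp hp'
    rw [hP1, Finset.mem_erase, Finset.mem_erase, Finset.mem_sdiff] at hp'
    exact hp'.2.2.2 hp
  have hqP : q ∉ P0 ∪ P1 := by
    rw [Finset.mem_union, not_or]
    constructor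
    · intro h
      have := ((hP0mem q).mp h).2.1
      omega
    · intro h
      rw [hP1, Finset.mem_erase, Finset.mem_erase] at h
      exact h.2.1 rfl
  have h2P : 2 ∉ P0 ∪ P1 := by
    rw [Finset.mem_union, not_or]
    constructor
    · intro h; exact ((hP0mem 2).mp h).1 rfl
    · intro h
      rw [hP1, Finset.mem_erase] at h
      exact h.1 rfl
  have hPall : ∀ p ∈ P0 ∪ P1, p.Prime := by
    intro p hp
    rcases Finset.mem_union.mp hp with h | h
    · exact hP0p p h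
    · exact hP1p p h
  set P : Finset ℕ := insert 2 (insert q (P0 ∪ P1)) with hP
  have hPp : ∀ p ∈ P, p.Prime := by
    intro p hp
    rw [hP, Finset.mem_insert, Finset.mem_insert] at hp
    rcases hp with rfl | rfl | hp
    · exact Nat.prime_two
    · exact hqp
    · exact hPall p hp
  have hcover : ∀ p, p ∈ Av ∪ Finset.univ.biUnion Py → p ∈ P := by
    intro p hp
    rw [hP, Finset.mem_insert, Finset.mem_insert, Finset.mem_union]
    by_cases h1 : p = 2
    · exact Or.inl h1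
    by_cases h2 : p = q
    · exact Or.inr (Or.inl h2)
    by_cases h3 : p ∈ P0
    · exact Or.inr (Or.inr (Or.inl h3))
    · refine Or.inr (Or.inr (Or.inr ?_))
      rw [hP1, Finset.mem_erase, Finset.mem_erase, Finset.mem_sdiff]
      exact ⟨h1, h2, hp, h3⟩
  have hAvP' : Av ⊆ insert q (P0 ∪ P1) := by
    intro p hp
    have := hcover p (Finset.mem_union_left _ hp)
    rw [hP, Finset.mem_insert] at this
    exact this.resolve_left (fun h => h2Av (h ▸ hp))
  have hAvPP : Av ⊆ P := hAvP'.trans (Finset.subset_insert _ _)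
  have hPyP : ∀ j, Py j ⊆ P := fun j p hp => hcover p (Finset.mem_union_right _
    (Finset.mem_biUnion.mpr ⟨j, Finset.mem_univ j, hp⟩))
  have hP02P : insert 2 P0 ⊆ P := by
    intro p hp
    rw [Finset.mem_insert] at hp
    rw [hP, Finset.mem_insert, Finset.mem_insert, Finset.mem_union]
    tauto
  have hPsP : ∀ i, Ps i ⊆ P := fun i => ((hPsi i).trans hPsuP0).trans hP02P
  have hAuPP : Au ⊆ P := fun p hp => hP02P (Finset.mem_insert_of_mem (hAuP0 hp))
  have hy0 : ∀ j, y j = cj P (cy j) ∅ := fun j => by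
    rw [cj_mono (hPyP j) (hPy2 j)]; exact hPy4 j
  have hs0 : ∀ i, s i = cj P (cs i) ∅ := fun i => by
    rw [cj_mono (hPsP i) (hPs2 i)]; exact hPs4 i
  have hx0 : x = cj P (cxf Au Av) ∅ := by rw [cj_cxf_empty hAuPP hAvPP]
  have hyi : ∀ j S', IsIntegral ℤ (cj P (cy j) S') := fun j S' =>
    Fam_integral hPp (cj_mem_Fam P (cy j)) (by rw [← hy0]; exact (hy j).2) S'
  have hsi : ∀ j S', IsIntegral ℤ (cj P (cs j) S') := fun j S' =>
    Fam_integral hPp (cj_mem_Fam P (cs j)) (by rw [← hs0]; exact (hs j).2) S'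
  have hxi : ∀ S', IsIntegral ℤ (cj P (cxf Au Av) S') := fun S' =>
    Fam_integral hPp (cj_mem_Fam P (cxf Au Av)) (by rw [← hx0]; exact hxI) S'
  have hid : ∀ S', ∑ j, (cj P (cy j) S') ^ 2 = (cj P (cxf Au Av) S') ^ 2
      + ∑ i, (cj P (cs i) S') ^ 2 := by
    intro S'
    set F : Finset ℕ → ℝ := ∑ j, (cj P (cy j)) ^ 2 - (cj P (cxf Au Av)) ^ 2
      - ∑ i, (cj P (cs i)) ^ 2 with hF
    have hFm : F ∈ Fam P := by
      rw [hF]
      apply Subring.sub_mem
      · apply Subring.sub_mem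
        · exact Subring.sum_mem _ (fun j _ => Subring.pow_mem _ (cj_mem_Fam P _) 2)
        · exact Subring.pow_mem _ (cj_mem_Fam P _) 2
      · exact Subring.sum_mem _ (fun j _ => Subring.pow_mem _ (cj_mem_Fam P _) 2)
    have hFv : ∀ S', F S' = ∑ j, (cj P (cy j) S') ^ 2 - (cj P (cxf Au Av) S') ^ 2
        - ∑ i, (cj P (cs i) S') ^ 2 := by
      intro S'
      rw [hF]
      simp only [Pi.sub_apply, Finset.sum_apply, Pi.pow_apply]
    have hF0 : F ∅ = 0 := by
      rw [hFv, ← hx0]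
      simp only [← hy0, ← hs0]
      linarith
    have := Fam_inj hPp hFm hF0 S'
    rw [hFv] at this
    linarith
  have hsuppS : ∀ i A, cs i A ≠ 0 → A ⊆ insert 2 P0 := fun i A h =>
    ((hPs2 i A h).trans (hPsi i)).trans hPsuP0
  have hq02 : q ∉ insert 2 P0 := by
    rw [Finset.mem_insert, not_or]
    exact ⟨hq2, fun h => hqP (Finset.mem_union_left _ h)⟩
  have hsq : ∀ i A, cs i A ≠ 0 → q ∉ A := fun i A h hq => hq02 (hsuppS i A h hq)
  have hmin : ∀ j A, cy j A ≠ 0 → q ∈ A → 2 ∉ A → pr Av ≤ pr A := by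
    intro j A h0 hqA h2A
    exact hAvmin A (hPy3 j A h0) h2A (fun h => hqPb (h hqA))
  obtain ⟨j0, hc1, hc2, hc3, -⟩ := core hd hqP hq2 h2P hqp hPall cy cs Au Av hAuP0 hAvP' hqv
    hyi hsi hxi hid hsq hmin C
    (by
      have h1 : ∀ i, T P (cs i) = T Psu (cs i) := fun i => by
        rw [T_mono (hPsP i) (hPs2 i), T_mono (hPsi i) (hPs2 i)]
      have h2 : ∑ i, T P (cs i) = ∑ i, T Psu (cs i) := Finset.sum_congr rfl (fun i _ => h1 i)
      have h3 : (pr Au : ℝ) ≤ pr A3 := by exact_mod_cast hAule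
      change 4 * ∑ i, T P (cs i) + pr Au ≤ C
      rw [h2, hCdef]; linarith)
    (by
      intro p hp hle
      apply hP0in p (hPp p hp)
      have : (p:ℝ) ≤ N0 := le_trans hle hN0
      have : p ≤ N0 := by exact_mod_cast this
      omega)
    (by linarith)
    (by linarith)
  -- final algebra
  set P' : Finset ℕ := insert 2 (P0 ∪ P1) with hP'
  have hPe : P = insert q P' := by rw [hP, hP']; exact Finset.insert_comm _ _ _
  have hqP' : q ∉ P' := by rw [hP', Finset.mem_insert, not_or]; exact ⟨hq2, hqP⟩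
  have hP'P : P' ⊆ P := by rw [hPe]; exact Finset.subset_insert _ _
  have hflip : ∀ d : Finset ℕ → ℚ, cj P' d {q} = cj P' d ∅ := by
    intro d
    apply cj_S_congr
    intro r hr
    have hrq : r ≠ q := fun h => hqP' (h ▸ hr)
    simp [hrq]
  have hsg0 : sg ∅ q = 1 := by simp [sg]
  have hsgq : sg {q} q = -1 := by simp [sg]
  have hval0 : ∀ d : Finset ℕ → ℚ, cj P d ∅ = cj P' d ∅
      + √(q:ℝ) * cj P' (fun A => d (insert q A)) ∅ := by
    intro d
    rw [hPe, cj_insert hqP', hsg0]; ring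
  have hvalq : ∀ d : Finset ℕ → ℚ, cj P d {q} = cj P' d ∅
      - √(q:ℝ) * cj P' (fun A => d (insert q A)) ∅ := by
    intro d
    rw [hPe, cj_insert hqP', hsgq, hflip, hflip]; ring
  have hzero : ∀ d : Finset ℕ → ℚ, (∀ A ⊆ P', d (insert q A) = 0) →
      cj P' (fun A => d (insert q A)) ∅ = 0 := by
    intro d hd
    unfold cj ev
    apply Finset.sum_eq_zero
    intro A hA
    simp [hd A (Finset.mem_powerset.mp hA)]
  have hyne : ∀ i, i ≠ j0 → y i = cj P' (cy i) ∅ ∧ cj P (cy i) {q} = cj P' (cy i) ∅ := by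
    intro i hi
    have hz := hzero (cy i) (fun A hA => hc3 i hi (insert q A) (by
      intro p hp
      rw [Finset.mem_insert] at hp
      rcases hp with rfl | hp
      · exact hAvPP hqv
      · exact hP'P (hA hp)) (Finset.mem_insert_self _ _))
    constructor
    · rw [hy0, hval0, hz]; ring
    · rw [hvalq, hz]; ring
  have hsne : ∀ i, cj P (cs i) {q} = s i := by
    intro i
    have hz := hzero (cs i) (fun A _ => by
      by_contra h
      exact hsq i _ h (Finset.mem_insert_self _ _))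
    rw [hs0, hvalq, hval0, hz]; ring
  -- membership in the finite set
  have hmem : ∀ j, 2 * cj P' (cy j) ∅ ∈ 𝒜 := by
    intro j
    set c0 : Finset ℕ → ℚ := fun A => if A ⊆ P' then 2 * cy j A else 0 with hc0
    have hc0s : ∀ A, c0 A ≠ 0 → A ⊆ insert 2 P0 := by
      intro A hA
      rw [hc0] at hA
      simp only at hA
      by_cases h : A ⊆ P'
      · rw [if_pos h] at hA
        exact hc1 j A h (fun h0 => hA (by rw [h0]; ring))
      · rw [if_neg h] at hA; exact absurd rfl hA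
    have h02P' : insert 2 P0 ⊆ P' := by
      rw [hP']; exact Finset.insert_subset_insert _ Finset.subset_union_left
    have e1 : ∀ S', cj (insert 2 P0) c0 S' = 2 * cj P' (cy j) S' := by
      intro S'
      rw [← cj_mono h02P' hc0s S']
      have : cj P' c0 S' = cj P' (fun A => 2 * cy j A) S' := by
        apply cj_congr
        intro A hA
        rw [hc0]; simp only; rw [if_pos hA]
      rw [this, cj_smul]; push_cast; rfl
    have e2 : T (insert 2 P0) c0 = 4 * T P' (cy j) := by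
      rw [← T_mono h02P' hc0s]
      have : T P' c0 = T P' (fun A => 2 * cy j A) := by
        unfold T
        apply ev_congr
        intro A hA
        rw [hc0]; simp only; rw [if_pos hA]
      rw [this, T_smul]; push_cast; ring
    refine ⟨c0, ?_, ?_, ?_⟩
    · intro S'
      rw [e1]
      have h1 := (hyi j (S'.erase q)).add (hyi j (insert q S'))
      rw [hPe, cj_insert hqP', cj_insert hqP', sg_erase, sg_insert] at h1
      have hn1 : ∀ d : Finset ℕ → ℚ, cj P' d (S'.erase q) = cj P' d S' := by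
        intro d
        apply cj_S_congr
        intro r hr
        have hrq : r ≠ q := fun h => hqP' (h ▸ hr)
        simp [hrq]
      have hn2 : ∀ d : Finset ℕ → ℚ, cj P' d (insert q S') = cj P' d S' := by
        intro d
        apply cj_S_congr
        intro r hr
        have hrq : r ≠ q := fun h => hqP' (h ▸ hr)
        simp [hrq]
      rw [hn1, hn1, hn2, hn2] at h1
      exact int_congr h1 (by ring)
    · rw [e2]; exact hc2 j
    · rw [e1]
  set ζ : Fin (n + 1) → ℝ := fun j => 2 * cj P' (cy j) ∅ with hζ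
  set β : ℝ := ∑ i, y (j0.succAbove i) ^ 2 with hβ
  set a : ℝ := cj P' (cy j0) ∅ with ha
  set b : ℝ := √(q:ℝ) * cj P' (fun A => cy j0 (insert q A)) ∅ with hb
  have hyj0 : y j0 = a + b := by rw [hy0, hval0]
  have hyj0' : cj P (cy j0) {q} = a - b := by rw [hvalq]
  have hne' : ∀ i, j0.succAbove i ≠ j0 := fun i => Fin.succAbove_ne j0 i
  have id0 : (a + b) ^ 2 + β = x ^ 2 + α := by
    have h1 := hyeq
    rw [Fin.sum_univ_succAbove _ j0, hyj0] at h1
    linarith
  have idq : (a - b) ^ 2 + β = ((rr Au - rr Av) / 2) ^ 2 + α := by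
    have h1 := hid {q}
    rw [Fin.sum_univ_succAbove _ j0, hyj0', cj_cxf_q hAuPP hAvPP hqAu hqv] at h1
    have h2 : ∑ i, cj P (cy (j0.succAbove i)) {q} ^ 2 = β := by
      rw [hβ]
      apply Finset.sum_congr rfl
      intro i _
      obtain ⟨h3, h4⟩ := hyne (j0.succAbove i) (hne' i)
      rw [h3, h4]
    have h3 : ∑ i, cj P (cs i) {q} ^ 2 = α := by
      rw [hα]
      exact Finset.sum_congr rfl (fun i _ => by rw [hsne])
    rw [h2, h3] at h1
    exact h1
  have hu2 := rr_sq Au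
  have hv2 := rr_sq Av
  set u : ℝ := (pr Au : ℝ) with hu
  set v : ℝ := (pr Av : ℝ) with hv
  have e1 : 4 * a * b = rr Au * rr Av := by
    rw [hx] at id0
    linear_combination id0 - idq
  have e2 : 2 * a ^ 2 + 2 * b ^ 2 + 2 * β = 2 * α + (u + v) / 2 := by
    rw [hx] at id0
    rw [← hu2, ← hv2]
    linear_combination id0 + idq
  have e3 : 16 * a ^ 2 * b ^ 2 = u * v := by
    rw [← hu2, ← hv2]
    linear_combination (4 * a * b + rr Au * rr Av) * e1
  have hζj0 : ζ j0 = 2 * a := rfl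
  have hζs : ∑ j, ζ j ^ 2 = (2 * a) ^ 2 + 4 * β := by
    rw [Fin.sum_univ_succAbove _ j0, hζj0, hβ, Finset.mul_sum]
    congr 1
    apply Finset.sum_congr rfl
    intro i _
    rw [(hyne _ (hne' i)).1, hζ]
    ring
  have key : v * (u - (2 * a) ^ 2) = (2 * a) ^ 2 * (4 * α + u - ∑ j, ζ j ^ 2) := by
    rw [hζs]
    linear_combination (8 * a ^ 2) * e2 - e3
  have hupos : 0 < u := by rw [hu]; exact_mod_cast pr_pos hAuV.1
  have hueq : u = (2 * a) ^ 2 := by
    by_contra hne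
    have hsub : u - (2 * a) ^ 2 ≠ 0 := sub_ne_zero.mpr hne
    have h1 : v = ζ j0 ^ 2 * (4 * α + u - ∑ j, ζ j ^ 2) / (u - ζ j0 ^ 2) := by
      rw [hζj0, eq_div_iff hsub, key]
    have h2 : v ≤ M := hM ⟨ζ, hmem, u, hAuval, j0, h1⟩
    linarith
  rw [← hueq, sub_self, mul_zero] at key
  have h4 : 4 * α + u - ∑ j, ζ j ^ 2 = 0 := by
    rcases mul_eq_zero.mp key.symm with h | h
    · exact absurd h hupos.ne'
    · exact h
  rw [hζs, ← hueq] at h4
  refine ⟨fun i => y (j0.succAbove i), fun i => hy _, ?_⟩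
  change α = β
  linarith

theorem no_SSn {S : Set ℕ} (hinf : ¬ FiniteDimensional ℚ (KF S)) (n : ℕ) : ¬ SSn S n := by
  induction n with
  | zero =>
    intro H
    obtain ⟨b, _, hb⟩ := H 1 (fun _ => 1) (fun _ => ⟨(KF S).one_mem, isIntegral_one⟩)
    simp at hb
  | succ n ih => intro H; exact ih (step hinf H)

end Pool.Agent.H421MQ
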